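import Mathlib
import Pool.Agent.TH915.SL.Fact
import Pool.Agent.TH915.SL.Sums

/-!
Growth of the total number of digits of `1, …, n` (job SL-X2).
-/

set_option autoImplicit false

namespace Pool.Agent.TH915.S0

open Finset

/-- total number of decimal digits of `1, …, n` -/
def Ld2 : ℕ → ℕ
  | 0 => 0
  | n + 1 => Ld2 n + (Nat.digits 10 (n + 1)).length

theorem digits_bd (n : ℕ) :
    Real.log ((n : ℝ) + 1) ≤ ((Nat.digits 10 (n + 1)).length : ℝ) * Real.log 10 ∧
    ((Nat.digits 10 (n + 1)).length : ℝ) * Real.log 10 ≤ Real.log ((n : ℝ) + 1) + Real.log 10 := by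
  have h1 : n + 1 < 10 ^ (Nat.digits 10 (n + 1)).length :=
    Nat.lt_base_pow_length_digits (by norm_num)
  have h2 : 10 ^ (Nat.digits 10 (n + 1)).length ≤ 10 * (n + 1) :=
    Nat.base_pow_length_digits_le 10 (n + 1) (by norm_num) (by omega)
  have h1' : (n : ℝ) + 1 ≤ (10 : ℝ) ^ (Nat.digits 10 (n + 1)).length := by exact_mod_cast h1.le
  have h2' : (10 : ℝ) ^ (Nat.digits 10 (n + 1)).length ≤ 10 * ((n : ℝ) + 1) := by exact_mod_cast h2
  have hn : (0 : ℝ) < (n : ℝ) + 1 := by positivity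
  constructor
  · have h3 := Real.log_le_log hn h1'
    rwa [Real.log_pow] at h3
  · have h3 := Real.log_le_log (by positivity) h2'
    rw [Real.log_pow, Real.log_mul (by norm_num) hn.ne'] at h3
    linarith

theorem L_succ (n : ℕ) : Real.log ((10 : ℝ) ^ Ld2 (n + 1)) =
    Real.log ((10 : ℝ) ^ Ld2 n) + ((Nat.digits 10 (n + 1)).length : ℝ) * Real.log 10 := by
  rw [Real.log_pow, Real.log_pow]
  change ((Ld2 n + (Nat.digits 10 (n + 1)).length : ℕ) : ℝ) * Real.log 10 = _
  push_cast
  ring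

theorem logfac_succ (n : ℕ) : Real.log ((n + 1).factorial : ℝ) =
    Real.log ((n : ℝ) + 1) + Real.log (n.factorial : ℝ) := by
  rw [Nat.factorial_succ, Nat.cast_mul, Real.log_mul (by positivity) (by positivity)]
  push_cast
  rfl

theorem G_mono : Monotone (fun n : ℕ =>
    Real.log ((10 : ℝ) ^ Ld2 n) - Real.log (n.factorial : ℝ)) := by
  refine monotone_nat_of_le_succ fun n => ?_
  rw [L_succ, logfac_succ]
  have := (digits_bd n).1
  linarith

theorem G_nonneg (n : ℕ) : Real.log (n.factorial : ℝ) ≤ Real.log ((10 : ℝ) ^ Ld2 n) := by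
  have h := G_mono (Nat.zero_le n)
  simp only [] at h
  have h0 : Real.log ((10 : ℝ) ^ Ld2 0) - Real.log ((0 : ℕ).factorial : ℝ) = 0 := by
    simp [Ld2]
  linarith

theorem G_upper (n : ℕ) : Real.log ((10 : ℝ) ^ Ld2 n) ≤
    Real.log (n.factorial : ℝ) + n * Real.log 10 := by
  induction n with
  | zero => simp [Ld2]
  | succ n ih =>
    rw [L_succ, logfac_succ]
    push_cast
    have := (digits_bd n).2
    linarith

theorem cat_growth : ∃ n0 : ℕ, 2 ≤ n0 ∧ ∀ m n : ℕ, n0 ≤ n → m < n →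
    (1 / 2 : ℝ) * (((n - m : ℕ) : ℝ) * Real.log n) ≤
      Real.log ((10 : ℝ) ^ Ld2 n) - Real.log ((10 : ℝ) ^ Ld2 m) := by
  obtain ⟨n0, h0, h⟩ := Pool.Agent.TH915.SL.fact_growth
  refine ⟨n0, h0, fun m n hn hmn => (h m n hn hmn).trans ?_⟩
  have h1 := G_mono hmn.le
  simp only [] at h1
  linarith

theorem cat_upper : ∃ b : ℝ, 0 < b ∧ ∀ n : ℕ, 2 ≤ n →
    Real.log ((10 : ℝ) ^ Ld2 n) ≤ b * ((n : ℝ) * Real.log n) := by
  have hl2 : 0 < Real.log 2 := Real.log_pos (by norm_num)
  have hl10 : 0 < Real.log 10 := Real.log_pos (by norm_num)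
  refine ⟨1 + Real.log 10 / Real.log 2, by positivity, fun n hn => ?_⟩
  have h1 := G_upper n
  have h2 := Pool.Agent.TH915.SL.fact_upper n
  have hn0 : (0 : ℝ) ≤ n := Nat.cast_nonneg n
  have h3 : Real.log 2 ≤ Real.log n := Real.log_le_log (by norm_num) (by exact_mod_cast hn)
  have h4 : Real.log 10 ≤ Real.log 10 / Real.log 2 * Real.log n := by
    calc Real.log 10 = Real.log 10 / Real.log 2 * Real.log 2 := by field_simp
      _ ≤ _ := mul_le_mul_of_nonneg_left h3 (by positivity)
  have h5 := mul_le_mul_of_nonneg_left h4 hn0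
  calc _ ≤ _ := h1
    _ ≤ (n : ℝ) * Real.log n + n * (Real.log 10 / Real.log 2 * Real.log n) := by linarith
    _ = _ := by ring

/-- one term of the difference of the two sums -/
theorem e_step (N : ℕ) (hN : 8 ≤ N) :
    0 ≤ 1 / Real.log ((N + 1).factorial : ℝ) - 1 / Real.log ((10 : ℝ) ^ Ld2 (N + 1)) ∧
    1 / Real.log ((N + 1).factorial : ℝ) - 1 / Real.log ((10 : ℝ) ^ Ld2 (N + 1)) ≤
      4 * Real.log 10 / Real.log N - 4 * Real.log 10 / Real.log ((N : ℝ) + 1) := by
  have hx : (8 : ℝ) ≤ N := by exact_mod_cast hN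
  have ha := Pool.Agent.TH915.SL.two_le_log hx
  have hl10 : 0 < Real.log 10 := Real.log_pos (by norm_num)
  have hFl := Pool.Agent.TH915.SL.fact_key 0 (N + 1) (Nat.zero_le _)
  have hMl := G_nonneg (N + 1)
  have hMu := G_upper (N + 1)
  push_cast at hFl hMu
  simp only [Nat.factorial_zero, Nat.cast_one, Real.log_one, sub_zero] at hFl
  set F := Real.log ((N + 1).factorial : ℝ) with hF
  set M := Real.log ((10 : ℝ) ^ Ld2 (N + 1)) with hM
  set x : ℝ := (N : ℝ) with hxdef
  have hab2 : 1 / (x + 1) ≤ Real.log (x + 1) - Real.log x := by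
    have h2 := Real.log_le_sub_one_of_pos (x := x / (x + 1)) (by positivity)
    rw [Real.log_div (by positivity) (by positivity)] at h2
    have h3 : x / (x + 1) - 1 = - (1 / (x + 1)) := by field_simp; ring
    linarith
  set a := Real.log x with hadef
  set b := Real.log (x + 1) with hbdef
  set l := Real.log 10 with hl
  have ha0 : 0 < a := by linarith
  have hab : a ≤ b := by
    have : 0 < 1 / (x + 1) := by positivity
    linarith
  have hb0 : 0 < b := by linarith
  have hF1 : (x + 1) * (b / 2) ≤ F := by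
    refine le_trans (mul_le_mul_of_nonneg_left ?_ (by positivity)) hFl
    linarith
  have hP : 0 < (x + 1) * (b / 2) := by positivity
  have hF0 : 0 < F := lt_of_lt_of_le hP hF1
  have hM0 : 0 < M := lt_of_lt_of_le hF0 hMl
  have he : 1 / F - 1 / M = (M - F) / (F * M) := by field_simp
  rw [he]
  refine ⟨div_nonneg (by linarith) (by positivity), ?_⟩
  have h1 : (M - F) / (F * M) ≤ ((x + 1) * l) / (((x + 1) * (b / 2)) * ((x + 1) * (b / 2))) := by
    refine div_le_div₀ (by positivity) (by linarith) (by positivity) ?_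
    exact mul_le_mul hF1 (hF1.trans hMl) hP.le hF0.le
  have h2 : ((x + 1) * l) / (((x + 1) * (b / 2)) * ((x + 1) * (b / 2))) =
      4 * l * ((1 / (x + 1)) / (b * b)) := by
    field_simp
    ring
  have h3 : (1 / (x + 1)) / (b * b) ≤ (b - a) / (a * b) := by
    refine div_le_div₀ (by linarith) hab2 (by positivity) ?_
    exact mul_le_mul_of_nonneg_right hab hb0.le
  have h4 : (b - a) / (a * b) = 1 / a - 1 / b := by field_simp
  calc (M - F) / (F * M) ≤ 4 * l * ((1 / (x + 1)) / (b * b)) := h1.trans h2.le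
    _ ≤ 4 * l * (1 / a - 1 / b) := by
        rw [← h4]
        exact mul_le_mul_of_nonneg_left h3 (by positivity)
    _ = 4 * l / a - 4 * l / b := by ring

theorem cat_sum : ∃ C : ℝ, 0 < C ∧ ∀ N : ℕ, 3 ≤ N →
    |∑ n ∈ range (N + 1), 1 / Real.log ((10 : ℝ) ^ Ld2 n) - Real.log (Real.log N)| ≤ C := by
  obtain ⟨C, hC, hS⟩ := Pool.Agent.TH915.SL.fact_sum
  have hl10 : 0 < Real.log 10 := Real.log_pos (by norm_num)
  set E : ℕ → ℝ := fun N => ∑ n ∈ range (N + 1),
    (1 / Real.log (n.factorial : ℝ) - 1 / Real.log ((10 : ℝ) ^ Ld2 n)) with hE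
  have hstep : ∀ N : ℕ, 8 ≤ N →
      E N + 4 * Real.log 10 / Real.log N ≤ E 8 + 4 * Real.log 10 / Real.log (8 : ℕ) ∧
      E 8 ≤ E N := by
    intro N hN
    induction N, hN using Nat.le_induction with
    | base => exact ⟨le_rfl, le_rfl⟩
    | succ N hN ih =>
      obtain ⟨h1, h2⟩ := ih
      obtain ⟨h3, h4⟩ := e_step N hN
      have hEs : E (N + 1) = E N +
          (1 / Real.log ((N + 1).factorial : ℝ) - 1 / Real.log ((10 : ℝ) ^ Ld2 (N + 1))) := by
        simp only [hE]
        rw [Finset.sum_range_succ _ (N + 1)]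
      rw [hEs]
      push_cast
      push_cast at h1
      constructor <;> linarith
  have hEb : ∀ N : ℕ, |E N| ≤ (∑ k ∈ range 9, |E k|) + 2 * Real.log 10 := by
    intro N
    rcases Nat.lt_or_ge N 8 with h | h
    · have h1 : |E N| ≤ ∑ k ∈ range 9, |E k| :=
        Finset.single_le_sum (f := fun k => |E k|) (fun k _ => abs_nonneg _)
          (Finset.mem_range.mpr (by omega))
      linarith
    · have h8 : |E 8| ≤ ∑ k ∈ range 9, |E k| :=
        Finset.single_le_sum (f := fun k => |E k|) (fun k _ => abs_nonneg _)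
          (Finset.mem_range.mpr (by omega))
      obtain ⟨h1, h2⟩ := hstep N h
      have hl8 : 2 ≤ Real.log ((8 : ℕ) : ℝ) := Pool.Agent.TH915.SL.two_le_log (by norm_num)
      have hlN : 2 ≤ Real.log (N : ℝ) := Pool.Agent.TH915.SL.two_le_log (by exact_mod_cast h)
      have e1 : 4 * Real.log 10 / Real.log ((8 : ℕ) : ℝ) ≤ 2 * Real.log 10 := by
        rw [div_le_iff₀ (by linarith)]
        nlinarith
      have e2 : 0 ≤ 4 * Real.log 10 / Real.log (N : ℝ) := by
        apply div_nonneg (by positivity) (by linarith)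
      have e5 := abs_le.mp h8
      rw [abs_le]
      constructor <;> linarith [e5.1, e5.2]
  refine ⟨C + ((∑ k ∈ range 9, |E k|) + 2 * Real.log 10), ?_, fun N hN => ?_⟩
  · have : 0 ≤ ∑ k ∈ range 9, |E k| := Finset.sum_nonneg fun k _ => abs_nonneg _
    positivity
  · have h1 := hS N hN
    have h2 := hEb N
    have h3 : ∑ n ∈ range (N + 1), 1 / Real.log ((10 : ℝ) ^ Ld2 n) - Real.log (Real.log N) =
        (∑ n ∈ range (N + 1), 1 / Real.log (n.factorial : ℝ) - Real.log (Real.log N)) - E N := by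
      simp only [hE]
      rw [Finset.sum_sub_distrib]
      ring
    rw [h3]
    exact (abs_sub _ _).trans (add_le_add h1 h2)

end Pool.Agent.TH915.S0
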