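import Mathlib
set_option autoImplicit false
namespace Pool.Agent.TH915.S0

/-- total number of decimal digits of `1, …, n` -/
def Ld : ℕ → ℕ
  | 0 => 0
  | n + 1 => Ld n + (Nat.digits 10 (n + 1)).length

/-- the concatenation of `1, …, n` -/
def cat : ℕ → ℕ
  | 0 => 0
  | n + 1 => cat n * 10 ^ (Nat.digits 10 (n + 1)).length + (n + 1)

/-- lower bounds -/
noncomputable def lo (n : ℕ) : ℝ := (cat n : ℝ) / 10 ^ Ld n

/-- upper bounds -/
noncomputable def hi (n : ℕ) : ℝ := ((cat n : ℝ) + 1) / 10 ^ Ld n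

lemma lo_mono : Monotone lo := by
  apply monotone_nat_of_le_succ
  intro n
  unfold lo
  have h1 : Ld (n + 1) = Ld n + (Nat.digits 10 (n + 1)).length := rfl
  have h2 : cat (n + 1) = cat n * 10 ^ (Nat.digits 10 (n + 1)).length + (n + 1) := rfl
  rw [h1, h2, pow_add, div_le_div_iff₀ (by positivity) (by positivity)]
  push_cast
  have h3 : (0 : ℝ) < 10 ^ Ld n := by positivity
  have h4 : (0 : ℝ) ≤ (n : ℝ) + 1 := by positivity
  nlinarith [mul_nonneg h4 h3.le]

lemma dig (n : ℕ) : n + 2 ≤ 10 ^ (Nat.digits 10 (n + 1)).length := by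
  have := Nat.lt_base_pow_length_digits (b := 10) (m := n + 1) (by norm_num)
  omega

lemma hi_anti : Antitone hi := by
  apply antitone_nat_of_succ_le
  intro n
  unfold hi
  have h1 : Ld (n + 1) = Ld n + (Nat.digits 10 (n + 1)).length := rfl
  have h2 : cat (n + 1) = cat n * 10 ^ (Nat.digits 10 (n + 1)).length + (n + 1) := rfl
  rw [h1, h2, pow_add, div_le_div_iff₀ (by positivity) (by positivity)]
  push_cast
  have h3 : (0 : ℝ) < 10 ^ Ld n := by positivity
  have h4 : ((n : ℝ) + 2) ≤ 10 ^ (Nat.digits 10 (n + 1)).length := by exact_mod_cast dig n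
  nlinarith [mul_le_mul_of_nonneg_left h4 h3.le]

/-- strict decrease at the first number after a power of ten -/
lemma hi_lt (n : ℕ) (h : n + 2 < 10 ^ (Nat.digits 10 (n + 1)).length) : hi (n + 1) < hi n := by
  unfold hi
  have h1 : Ld (n + 1) = Ld n + (Nat.digits 10 (n + 1)).length := rfl
  have h2 : cat (n + 1) = cat n * 10 ^ (Nat.digits 10 (n + 1)).length + (n + 1) := rfl
  rw [h1, h2, pow_add, div_lt_div_iff₀ (by positivity) (by positivity)]
  push_cast
  have h3 : (0 : ℝ) < 10 ^ Ld n := by positivity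
  have h4 : ((n : ℝ) + 2) < 10 ^ (Nat.digits 10 (n + 1)).length := by exact_mod_cast h
  nlinarith [mul_lt_mul_of_pos_left h4 h3]

lemma exists_strict (n : ℕ) : ∃ m, n ≤ m ∧ hi (m + 1) < hi m := by
  -- `m + 1 = 10 ^ n`
  have hn : n < 10 ^ n := Nat.lt_pow_self (by norm_num)
  refine ⟨10 ^ n - 1, by omega, hi_lt _ ?_⟩
  have h1 : 10 ^ n - 1 + 1 = 10 ^ n := by omega
  have h2 : (Nat.digits 10 (10 ^ n - 1 + 1)).length = n + 1 := by
    rw [h1, Nat.digits_len 10 _ (by norm_num) (by positivity), Nat.log_pow (by norm_num)]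
  rw [h2, pow_succ]
  omega

lemma lo_le_hi (n m : ℕ) : lo n ≤ hi m := by
  have h1 : lo (max n m) ≤ hi (max n m) := by
    unfold lo hi
    apply div_le_div_of_nonneg_right _ (by positivity)
    linarith
  exact (lo_mono (le_max_left n m)).trans (h1.trans (hi_anti (le_max_right n m)))

/-- Champernowne's constant -/
theorem champ : ∃ C : ℝ, 0 < C ∧ C < 1 ∧ ∀ n : ℕ, ⌊(10 : ℝ) ^ Ld n * C⌋₊ = cat n := by
  have hb : BddAbove (Set.range lo) := ⟨hi 0, by rintro _ ⟨n, rfl⟩; exact lo_le_hi n 0⟩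
  obtain ⟨C, hC⟩ : ∃ C, C = ⨆ n, lo n := ⟨_, rfl⟩
  have h1 : ∀ n, lo n ≤ C := fun n => hC ▸ le_ciSup hb n
  have h2 : ∀ m, C ≤ hi m := fun m => hC ▸ ciSup_le fun n => lo_le_hi n m
  have h3 : ∀ n, C < hi n := by
    intro n
    obtain ⟨m, hm, hlt⟩ := exists_strict n
    exact (h2 (m + 1)).trans_lt (hlt.trans_le (hi_anti hm))
  have l1 : lo 1 = 1 / 10 := by
    unfold lo
    norm_num [cat, Ld]
  have u0 : hi 0 = 1 := by
    unfold hi
    norm_num [cat, Ld]
  refine ⟨C, ?_, ?_, ?_⟩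
  · have := h1 1
    rw [l1] at this
    linarith
  · have := h3 0
    rwa [u0] at this
  · intro n
    have hp : (0 : ℝ) < 10 ^ Ld n := by positivity
    rw [Nat.floor_eq_iff]
    · constructor
      · have := h1 n
        unfold lo at this
        rwa [div_le_iff₀ hp, mul_comm] at this
      · have := h3 n
        unfold hi at this
        rwa [lt_div_iff₀ hp, mul_comm] at this
    · have := h1 1
      rw [l1] at this
      positivity

end Pool.Agent.TH915.S0
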