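import Pool.Agent.TH915.S0.Est
import Pool.Agent.TH915.SL.Sums

/-!
# Covariances for scales of size `exp (n log n)` (helper915)
-/

set_option autoImplicit false

namespace Pool.Agent.TH915.S0

open Filter Topology MeasureTheory Finset

open scoped Classical

open Pool.Agent.TH915.SL (near_sum)

/-- the scales -/
structure Gr (σ : ℕ → ℝ) : Prop where
  one : ∀ n, σ n = 1 ∨ 2 ≤ σ n
  lo : ∃ a : ℝ, 0 < a ∧ ∃ n0 : ℕ, 2 ≤ n0 ∧ ∀ m n : ℕ, n0 ≤ n → m < n →
    a * (((n - m : ℕ) : ℝ) * Real.log n) ≤ Real.log (σ n) - Real.log (σ m)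
  up : ∃ b : ℝ, 0 < b ∧ ∀ n : ℕ, 2 ≤ n → Real.log (σ n) ≤ b * ((n : ℝ) * Real.log n)

variable {σ : ℕ → ℝ}

lemma Gr.one_le (hσ : Gr σ) (n : ℕ) : 1 ≤ σ n := by
  rcases hσ.one n with h | h <;> linarith

lemma Gr.pos (hσ : Gr σ) (n : ℕ) : 0 < σ n := lt_of_lt_of_le one_pos (hσ.one_le n)

lemma Gr.log_nonneg (hσ : Gr σ) (n : ℕ) : 0 ≤ Real.log (σ n) := Real.log_nonneg (hσ.one_le n)

/-- the expected density -/
noncomputable def rr (σ : ℕ → ℝ) (n : ℕ) : ℝ := 1 / Real.log (σ n)

/-- the comparison density -/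
noncomputable def rho (n : ℕ) : ℝ := 1 / ((n : ℝ) * Real.log n)

lemma rho_nonneg (n : ℕ) : 0 ≤ rho n := by
  unfold rho
  rcases Nat.eq_zero_or_pos n with rfl | hn
  · simp
  · have : 0 ≤ Real.log n := Real.log_nonneg (by exact_mod_cast hn)
    positivity

lemma Gr.rr_nonneg (hσ : Gr σ) (n : ℕ) : 0 ≤ rr σ n := by
  unfold rr
  have := hσ.log_nonneg n
  positivity

lemma Gr.rr_le_two (hσ : Gr σ) (n : ℕ) : rr σ n ≤ 2 := by
  unfold rr
  rcases hσ.one n with h | h
  · rw [h]; simp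
  · have h1 : Real.log 2 ≤ Real.log (σ n) := Real.log_le_log two_pos h
    have h2 := Real.log_two_gt_d9
    rw [div_le_iff₀ (by linarith)]
    linarith

/-- the `n`-th indicator -/
noncomputable def fn (g : ℕ → ℕ) (σ : ℕ → ℝ) (n : ℕ) (x : ℝ) : ℝ := St (ind g) (σ n * x)

lemma fn_nonneg (g : ℕ → ℕ) (σ : ℕ → ℝ) (n : ℕ) (x : ℝ) : 0 ≤ fn g σ n x := ind_nonneg g _

lemma fn_le_one (g : ℕ → ℕ) (σ : ℕ → ℝ) (n : ℕ) (x : ℝ) : fn g σ n x ≤ 1 := ind_le_one g _

lemma fn_meas (g : ℕ → ℕ) (σ : ℕ → ℝ) (n : ℕ) : Measurable (fn g σ n) :=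
  (St_meas _).comp (measurable_const.mul measurable_id)

lemma bdd_ii {f : ℝ → ℝ} (hf : Measurable f) {A : ℝ} (h : ∀ x, |f x| ≤ A) (s t : ℝ) :
    IntervalIntegrable f volume s t := by
  have h2 : ∀ s t : ℝ, IntegrableOn f (Set.Ioc s t) := by
    intro s t
    refine Measure.integrableOn_of_bounded (M := A) (by simp) hf.aestronglyMeasurable ?_
    exact Eventually.of_forall fun x => by rw [Real.norm_eq_abs]; exact h x
  rcases le_total s t with h1 | h1
  · exact (intervalIntegrable_iff_integrableOn_Ioc_of_le h1).2 (h2 s t)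
  · exact ((intervalIntegrable_iff_integrableOn_Ioc_of_le h1).2 (h2 t s)).symm

lemma fn_ii (g : ℕ → ℕ) (σ : ℕ → ℝ) (n : ℕ) (s t : ℝ) :
    IntervalIntegrable (fn g σ n) volume s t :=
  bdd_ii (fn_meas g σ n) (A := 1) (fun x => by
    rw [abs_of_nonneg (fn_nonneg g σ n x)]; exact fn_le_one g σ n x) s t

lemma fn2_ii (g : ℕ → ℕ) (σ : ℕ → ℝ) (m n : ℕ) (s t : ℝ) :
    IntervalIntegrable (fun x => fn g σ m x * fn g σ n x) volume s t :=
  bdd_ii (f := fun x => fn g σ m x * fn g σ n x) ((fn_meas g σ m).mul (fn_meas g σ n)) (A := 1)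
    (fun x => by
    rw [abs_of_nonneg (mul_nonneg (fn_nonneg g σ m x) (fn_nonneg g σ n x))]
    exact mul_le_one₀ (fn_le_one g σ m x) (fn_nonneg g σ n x) (fn_le_one g σ n x)) s t

/-- elementary facts on the densities -/
lemma Gr.facts (hσ : Gr σ) : ∃ A : ℝ, 1 ≤ A ∧ ∃ n1 : ℕ, 3 ≤ n1 ∧ ∀ n ≥ n1,
    rr σ n ≤ A * rho n ∧ rho n ≤ A * rr σ n ∧ 1 ≤ Real.log (σ n) ∧ rr σ n ≤ 1 ∧
    0 < rr σ n ∧ (∀ m < n, Real.log (σ m) + 1 ≤ Real.log (σ n) ∧
      1 / (Real.log (σ n) - Real.log (σ m)) ≤ A * (1 / (((n - m : ℕ) : ℝ) * Real.log n))) := by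
  obtain ⟨a, ha, n0, hn0, hlo⟩ := hσ.lo
  obtain ⟨b, hb, hup⟩ := hσ.up
  have hlog : Tendsto (fun n : ℕ => Real.log (n : ℝ)) atTop atTop :=
    Real.tendsto_log_atTop.comp tendsto_natCast_atTop_atTop
  obtain ⟨n2, hn2⟩ := eventually_atTop.1 (hlog.eventually_ge_atTop (1 / a))
  refine ⟨1 + 1 / a + b, by have : 0 < 1 / a := by positivity
                            linarith, max (max n0 n2) 3, le_max_right _ _, fun n hn => ?_⟩
  have h1 : n0 ≤ n := (le_max_left _ _).trans ((le_max_left _ _).trans hn)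
  have h2 : n2 ≤ n := (le_max_right _ _).trans ((le_max_left _ _).trans hn)
  have h3 : 3 ≤ n := (le_max_right _ _).trans hn
  have hl := hn2 n h2
  have hn3 : (3 : ℝ) ≤ n := by exact_mod_cast h3
  have hln : 0 < Real.log n := Real.log_pos (by linarith)
  have hal : 1 ≤ a * Real.log n := by
    rw [div_le_iff₀ ha] at hl; linarith
  have h0 := hlo 0 n h1 (by omega)
  have h00 := hσ.log_nonneg 0
  rw [Nat.sub_zero] at h0
  have hℓ : a * ((n : ℝ) * Real.log n) ≤ Real.log (σ n) := by linarith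
  have hnl : 0 < (n : ℝ) * Real.log n := by positivity
  have hℓ1 : 1 ≤ Real.log (σ n) := by
    have : a * Real.log n ≤ a * ((n : ℝ) * Real.log n) := by
      apply mul_le_mul_of_nonneg_left _ ha.le
      nlinarith
    linarith
  have hu := hup n (by omega)
  have hap : 0 < 1 / a := by positivity
  refine ⟨?_, ?_, hℓ1, ?_, ?_, fun m hm => ⟨?_, ?_⟩⟩
  · calc rr σ n ≤ 1 / (a * ((n : ℝ) * Real.log n)) :=
          one_div_le_one_div_of_le (by positivity) hℓ
      _ = (1 / a) * rho n := by unfold rho; field_simp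
      _ ≤ _ := mul_le_mul_of_nonneg_right (by linarith) (rho_nonneg n)
  · calc rho n = b * (1 / (b * ((n : ℝ) * Real.log n))) := by unfold rho; field_simp
      _ ≤ b * rr σ n := by
          apply mul_le_mul_of_nonneg_left _ hb.le
          exact one_div_le_one_div_of_le (by linarith) hu
      _ ≤ _ := mul_le_mul_of_nonneg_right (by linarith) (hσ.rr_nonneg n)
  · unfold rr
    rw [div_le_one (by linarith)]; exact hℓ1
  · unfold rr
    have : 0 < Real.log (σ n) := by linarith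
    positivity
  · have h4 := hlo m n h1 hm
    have h5 : (1 : ℝ) ≤ ((n - m : ℕ) : ℝ) := by
      have : 1 ≤ n - m := by omega
      exact_mod_cast this
    have h6 : a * Real.log n ≤ a * (((n - m : ℕ) : ℝ) * Real.log n) := by
      apply mul_le_mul_of_nonneg_left _ ha.le
      nlinarith
    linarith
  · have h4 := hlo m n h1 hm
    have h5 : (1 : ℝ) ≤ ((n - m : ℕ) : ℝ) := by
      have : 1 ≤ n - m := by omega
      exact_mod_cast this
    have h6 : 0 < ((n - m : ℕ) : ℝ) * Real.log n := by positivity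
    calc 1 / (Real.log (σ n) - Real.log (σ m)) ≤ 1 / (a * (((n - m : ℕ) : ℝ) * Real.log n)) :=
          one_div_le_one_div_of_le (by positivity) h4
      _ = (1 / a) * (1 / (((n - m : ℕ) : ℝ) * Real.log n)) := by field_simp
      _ ≤ _ := mul_le_mul_of_nonneg_right (by linarith) (by positivity)

/-- the far error term -/
lemma Gr.far (hσ : Gr σ) {c : ℝ} (hc : 0 < c) : ∀ᶠ n : ℕ in atTop, ∀ m : ℕ, 2 ≤ m → m ^ 4 ≤ n →
    Real.exp (Real.log (σ m) - c * Real.sqrt (Real.log (σ n))) ≤ rr σ n := by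
  obtain ⟨A, hA1, n1, hn1, hf⟩ := hσ.facts
  obtain ⟨b, hb, hup⟩ := hσ.up
  -- lower bound for the logarithm: log σ n ≥ n / A
  have e1 : ∀ᶠ n : ℕ in atTop, b * Real.log (n : ℝ) ≤ c / (4 * A) * (n : ℝ) ^ (1 / 4 : ℝ) := by
    have h1 : (fun x : ℝ => Real.log x) =o[atTop] fun x : ℝ => x ^ (1 / 4 : ℝ) :=
      isLittleO_log_rpow_atTop (by norm_num)
    have h2 := (h1.bound (show 0 < c / (4 * A) / b by positivity))
    have h3 := tendsto_natCast_atTop_atTop (R := ℝ) |>.eventually h2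
    filter_upwards [h3, eventually_ge_atTop 1] with n hn hn1
    have hn1' : (1 : ℝ) ≤ n := by exact_mod_cast hn1
    rw [Real.norm_eq_abs, Real.norm_eq_abs, abs_of_nonneg (Real.log_nonneg hn1'),
      abs_of_nonneg (by positivity)] at hn
    calc b * Real.log (n : ℝ) ≤ b * (c / (4 * A) / b * (n : ℝ) ^ (1 / 4 : ℝ)) :=
          mul_le_mul_of_nonneg_left hn hb.le
      _ = _ := by field_simp
  have e2 : ∀ᶠ n : ℕ in atTop, Real.log (b * ((n : ℝ) * Real.log n)) ≤
      c / (4 * A) * (n : ℝ) ^ (1 / 2 : ℝ) := by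
    have h1 : (fun x : ℝ => Real.log x) =o[atTop] fun x : ℝ => x ^ (1 / 2 : ℝ) :=
      isLittleO_log_rpow_atTop (by norm_num)
    have h2 := (h1.bound (show 0 < c / (4 * A) / 3 by positivity))
    have h3 := tendsto_natCast_atTop_atTop (R := ℝ) |>.eventually h2
    have h4 := tendsto_natCast_atTop_atTop (R := ℝ) |>.eventually_ge_atTop b
    filter_upwards [h3, h4, eventually_ge_atTop 3] with n hn hn2 hn1
    have hn1' : (3 : ℝ) ≤ n := by exact_mod_cast hn1
    have hln : 0 < Real.log n := Real.log_pos (by linarith)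
    rw [Real.norm_eq_abs, Real.norm_eq_abs, abs_of_nonneg hln.le,
      abs_of_nonneg (by positivity)] at hn
    have h5 : b * ((n : ℝ) * Real.log n) ≤ (n : ℝ) ^ 3 := by
      have h6 : Real.log (n : ℝ) ≤ n := (Real.log_le_sub_one_of_pos (by linarith)).trans (by linarith)
      calc b * ((n : ℝ) * Real.log n) ≤ n * ((n : ℝ) * n) := by gcongr
        _ = _ := by ring
    calc Real.log (b * ((n : ℝ) * Real.log n)) ≤ Real.log ((n : ℝ) ^ 3) :=
          Real.log_le_log (by positivity) h5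
      _ = 3 * Real.log n := by rw [Real.log_pow]; norm_num
      _ ≤ 3 * (c / (4 * A) / 3 * (n : ℝ) ^ (1 / 2 : ℝ)) := by linarith
      _ = _ := by field_simp
  filter_upwards [e1, e2, eventually_ge_atTop n1] with n h1 h2 h3 m hm hmn
  obtain ⟨f1, f2, f3, f4, f5, f6⟩ := hf n h3
  have hn3 : (3 : ℝ) ≤ n := by exact_mod_cast hn1.trans h3
  have hn0 : (0 : ℝ) < n := by linarith
  have hln : 0 < Real.log n := Real.log_pos (by linarith)
  have hln1 : 1 ≤ Real.log n := by
    rw [Real.le_log_iff_exp_le hn0]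
    have := Real.exp_one_lt_d9
    linarith
  have hℓ : 0 < Real.log (σ n) := by linarith
  have hA0 : 0 < A := by linarith
  -- m ≤ n ^ (1/4)
  have hm0 : (2 : ℝ) ≤ m := by exact_mod_cast hm
  have hm4 : (m : ℝ) ≤ (n : ℝ) ^ (1 / 4 : ℝ) := by
    have h5 : (m : ℝ) ^ (4 : ℕ) ≤ n := by exact_mod_cast hmn
    calc (m : ℝ) = ((m : ℝ) ^ (4 : ℕ)) ^ (1 / 4 : ℝ) := by
          rw [← Real.rpow_natCast, ← Real.rpow_mul (by linarith)]; norm_num
      _ ≤ _ := Real.rpow_le_rpow (by positivity) h5 (by norm_num)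
  have hmn' : m ≤ n := by
    calc m = m ^ 1 := (pow_one m).symm
      _ ≤ m ^ 4 := Nat.pow_le_pow_right (by omega) (by norm_num)
      _ ≤ n := hmn
  have hlm : Real.log m ≤ Real.log n := Real.log_le_log (by linarith) (by exact_mod_cast hmn')
  have hlm0 : 0 ≤ Real.log m := Real.log_nonneg (by linarith)
  set q := (n : ℝ) ^ (1 / 4 : ℝ) with hq
  have hq0 : 0 < q := by positivity
  have hqq : (n : ℝ) ^ (1 / 2 : ℝ) = q * q := by
    rw [hq, ← Real.rpow_add hn0]; norm_num
  have hsq : Real.sqrt n = q * q := by rw [← hqq, Real.sqrt_eq_rpow]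
  have k1 : Real.log (σ m) ≤ c / (4 * A) * (q * q) := by
    calc Real.log (σ m) ≤ b * ((m : ℝ) * Real.log m) := hup m hm
      _ ≤ b * (q * Real.log n) := by gcongr
      _ = q * (b * Real.log n) := by ring
      _ ≤ q * (c / (4 * A) * q) := mul_le_mul_of_nonneg_left h1 hq0.le
      _ = _ := by ring
  have k2 : Real.log (Real.log (σ n)) ≤ c / (4 * A) * (q * q) := by
    rw [← hqq]
    refine le_trans (Real.log_le_log hℓ (hup n (by omega))) h2
  have k3 : q * q / A ≤ Real.sqrt (Real.log (σ n)) := by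
    apply Real.le_sqrt_of_sq_le
    have h5 : (q * q / A) ^ 2 = n / A ^ 2 := by
      rw [div_pow, ← hsq, Real.sq_sqrt hn0.le]
    rw [h5]
    unfold rho rr at f1
    rw [mul_one_div, div_le_div_iff₀ hℓ (by positivity)] at f1
    rw [div_le_iff₀ (by positivity)]
    have h6 : (n : ℝ) ≤ n * Real.log n := by nlinarith
    have h7 : A * Real.log (σ n) ≤ Real.log (σ n) * A ^ 2 := by nlinarith
    linarith
  have k4 : c * (q * q / A) ≤ c * Real.sqrt (Real.log (σ n)) := mul_le_mul_of_nonneg_left k3 hc.le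
  have k5 : c * (q * q / A) = 4 * (c / (4 * A) * (q * q)) := by field_simp
  have k6 : 0 ≤ c / (4 * A) * (q * q) := by positivity
  calc Real.exp (Real.log (σ m) - c * Real.sqrt (Real.log (σ n))) ≤
      Real.exp (-Real.log (Real.log (σ n))) := by
        apply Real.exp_le_exp.2; linarith
    _ = rr σ n := by rw [Real.exp_neg, Real.exp_log hℓ, rr, one_div]

/-- the bound for the covariances -/
noncomputable def qc (σ : ℕ → ℝ) (m n : ℕ) : ℝ :=
  rr σ m ^ 2 * rr σ n + rr σ m * rr σ n ^ 2 +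
    (if 2 ≤ m ∧ n < m ^ 4 then
      1 / ((m : ℝ) * Real.log m) * (1 / (((n - m : ℕ) : ℝ) * Real.log n)) else 0)

lemma Gr.qc_nonneg (hσ : Gr σ) (m n : ℕ) : 0 ≤ qc σ m n := by
  unfold qc
  have h1 := hσ.rr_nonneg m
  have h2 := hσ.rr_nonneg n
  have h3 : 0 ≤ (if 2 ≤ m ∧ n < m ^ 4 then
      1 / ((m : ℝ) * Real.log m) * (1 / (((n - m : ℕ) : ℝ) * Real.log n)) else 0) := by
    split_ifs with h
    · have h4 : 0 ≤ Real.log m := Real.log_natCast_nonneg m
      have h5 : 0 ≤ Real.log n := Real.log_natCast_nonneg n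
      positivity
    · exact le_rfl
  positivity

/-- **Covariances.** -/
theorem cov {g : ℕ → ℕ} (hg : Sh g) (hσ : Gr σ) {s t : ℝ} (hs : 0 < s) (hst : s < t) :
    ∃ C : ℝ, 0 < C ∧ ∃ P : ℕ, 3 ≤ P ∧ ∀ m n : ℕ, P ≤ m → m < n →
      ∫ x in s..t, (fn g σ m x - rr σ m) * (fn g σ n x - rr σ n) ≤ C * qc σ m n := by
  obtain ⟨A, hA1, n1, hn1, hf⟩ := hσ.facts
  obtain ⟨B, L0, hB, hL0, hmean⟩ := mean_est hg hs hst
  obtain ⟨K, L1, hK, hL1, hnear⟩ := near_est hg hs hst
  obtain ⟨c, D, L2, hc, hD, hL2, hfar⟩ := far_est hg hs hst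
  have hts : 0 < t - s := by linarith
  have hℓt : Tendsto (fun n : ℕ => Real.log (σ n)) atTop atTop := by
    have h1 : Tendsto (fun n : ℕ => (n : ℝ) * (1 / A)) atTop atTop :=
      tendsto_natCast_atTop_atTop.atTop_mul_const (by positivity)
    refine tendsto_atTop_mono' _ ?_ h1
    filter_upwards [eventually_ge_atTop n1] with n hn
    obtain ⟨f1, f2, f3, f4, f5, f6⟩ := hf n hn
    have hn3 : (3 : ℝ) ≤ n := by exact_mod_cast hn1.trans hn
    have hln1 : 1 ≤ Real.log n := by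
      rw [Real.le_log_iff_exp_le (by linarith)]
      have := Real.exp_one_lt_d9
      linarith
    unfold rho rr at f1
    rw [mul_one_div, div_le_div_iff₀ (by linarith) (by positivity)] at f1
    rw [mul_one_div, div_le_iff₀ (by linarith)]
    nlinarith
  obtain ⟨P1, hP1⟩ := eventually_atTop.1 ((hℓt.eventually_ge_atTop (max L0 (max L1 L2))).and
    (hσ.far hc))
  refine ⟨2 * B + D + D * (2 * D + D ^ 2) + (2 * D + D ^ 2) * (t - s) + K * A ^ 2, by positivity,
    max P1 n1, hn1.trans (le_max_right _ _), fun m n hm hmn => ?_⟩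
  set C := 2 * B + D + D * (2 * D + D ^ 2) + (2 * D + D ^ 2) * (t - s) + K * A ^ 2 with hC
  have hmP : P1 ≤ m := (le_max_left _ _).trans hm
  have hmn1 : n1 ≤ m := (le_max_right _ _).trans hm
  obtain ⟨p1, p2⟩ := hP1 m hmP
  obtain ⟨r1, r2⟩ := hP1 n (hmP.trans hmn.le)
  obtain ⟨f1, f2, f3, f4, f5, f6⟩ := hf m hmn1
  obtain ⟨e1, e2, e3, e4, e5, e6⟩ := hf n (hmn1.trans hmn.le)
  obtain ⟨e7, e8⟩ := e6 m hmn
  have pL0 : L0 ≤ Real.log (σ m) := (le_max_left _ _).trans p1
  have pL1 : L1 ≤ Real.log (σ m) := (le_max_left _ _).trans ((le_max_right _ _).trans p1)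
  have pL2 : L2 ≤ Real.log (σ m) := (le_max_right _ _).trans ((le_max_right _ _).trans p1)
  have rL0 : L0 ≤ Real.log (σ n) := (le_max_left _ _).trans r1
  have hexp : ∀ k, Real.exp (Real.log (σ k)) = σ k := fun k => Real.exp_log (hσ.pos k)
  have m1 := hmean _ pL0
  have m2 := hmean _ rL0
  rw [hexp] at m1 m2
  set X := rr σ n with hX
  set Y := rr σ m with hY
  have eX : 1 / Real.log (σ n) = X := rfl
  have eY : 1 / Real.log (σ m) = Y := rfl
  rw [eX] at m2
  rw [eY] at m1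
  have m1' := (abs_le.1 m1).1
  have m2' := (abs_le.1 m2).1
  -- expansion
  have hexpand : ∫ x in s..t, (fn g σ m x - Y) * (fn g σ n x - X) =
      (∫ x in s..t, fn g σ m x * fn g σ n x) - X * (∫ x in s..t, fn g σ m x) -
        Y * (∫ x in s..t, fn g σ n x) + X * Y * (t - s) := by
    have e : ∀ x, (fn g σ m x - Y) * (fn g σ n x - X) =
        (fn g σ m x * fn g σ n x - X * fn g σ m x) - (Y * fn g σ n x - X * Y) := by
      intro x; ring
    simp only [e]
    rw [intervalIntegral.integral_sub ((fn2_ii g σ m n s t).sub ((fn_ii g σ m s t).const_mul X))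
      (((fn_ii g σ n s t).const_mul Y).sub intervalIntegrable_const),
      intervalIntegral.integral_sub (fn2_ii g σ m n s t) ((fn_ii g σ m s t).const_mul X),
      intervalIntegral.integral_sub ((fn_ii g σ n s t).const_mul Y) intervalIntegrable_const,
      intervalIntegral.integral_const_mul, intervalIntegral.integral_const_mul,
      intervalIntegral.integral_const, smul_eq_mul]
    ring
  have q1 : (∫ x in s..t, St (ind g) (σ m * x)) = ∫ x in s..t, fn g σ m x := rfl
  have q2 : (∫ x in s..t, St (ind g) (σ n * x)) = ∫ x in s..t, fn g σ n x := rfl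
  rw [q1] at m1'
  rw [q2] at m2'
  have hX0 : 0 ≤ X := hσ.rr_nonneg n
  have hY0 : 0 ≤ Y := hσ.rr_nonneg m
  have n1' : X * ((t - s) * Y - B * Y ^ 2) ≤ X * ∫ x in s..t, fn g σ m x :=
    mul_le_mul_of_nonneg_left (by linarith) hX0
  have n2' : Y * ((t - s) * X - B * X ^ 2) ≤ Y * ∫ x in s..t, fn g σ n x :=
    mul_le_mul_of_nonneg_left (by linarith) hY0
  rw [hexpand]
  by_cases hcase : n < m ^ 4
  · -- near
    have h1 := hnear (Real.log (σ m)) (Real.log (σ n)) pL1 e7
    rw [hexp, hexp, eY] at h1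
    have q3 : (∫ x in s..t, St (ind g) (σ m * x) * St (ind g) (σ n * x)) =
        ∫ x in s..t, fn g σ m x * fn g σ n x := rfl
    rw [q3] at h1
    have h2 : Y * (1 / (Real.log (σ n) - Real.log (σ m))) ≤
        A ^ 2 * (1 / ((m : ℝ) * Real.log m) * (1 / (((n - m : ℕ) : ℝ) * Real.log n))) := by
      calc Y * (1 / (Real.log (σ n) - Real.log (σ m))) ≤
          (A * rho m) * (A * (1 / (((n - m : ℕ) : ℝ) * Real.log n))) := by
            apply mul_le_mul f1 e8
            · have : 0 < Real.log (σ n) - Real.log (σ m) := by linarith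
              positivity
            · exact mul_nonneg (by linarith) (rho_nonneg m)
        _ = _ := by unfold rho; ring
    have hq : qc σ m n = Y ^ 2 * X + Y * X ^ 2 +
        1 / ((m : ℝ) * Real.log m) * (1 / (((n - m : ℕ) : ℝ) * Real.log n)) := by
      unfold qc
      rw [if_pos ⟨by omega, hcase⟩]
    rw [hq]
    set Q := 1 / ((m : ℝ) * Real.log m) * (1 / (((n - m : ℕ) : ℝ) * Real.log n)) with hQ
    have hQ0 : 0 ≤ Q := by
      rw [hQ]
      have h4 : 0 ≤ Real.log m := Real.log_natCast_nonneg m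
      have h5 : 0 ≤ Real.log n := Real.log_natCast_nonneg n
      positivity
    have h3 : ∫ x in s..t, fn g σ m x * fn g σ n x ≤ K * A ^ 2 * Q := by
      calc _ ≤ _ := h1
        _ ≤ K * (A ^ 2 * Q) := mul_le_mul_of_nonneg_left h2 hK.le
        _ = _ := by ring
    have h4 : B * (Y ^ 2 * X) ≤ C * (Y ^ 2 * X) := by
      apply mul_le_mul_of_nonneg_right _ (by positivity)
      rw [hC]
      have : 0 < D + D * (2 * D + D ^ 2) + (2 * D + D ^ 2) * (t - s) + K * A ^ 2 := by positivity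
      linarith
    have h5 : B * (Y * X ^ 2) ≤ C * (Y * X ^ 2) := by
      apply mul_le_mul_of_nonneg_right _ (by positivity)
      rw [hC]
      have : 0 < D + D * (2 * D + D ^ 2) + (2 * D + D ^ 2) * (t - s) + K * A ^ 2 := by positivity
      linarith
    have h6 : K * A ^ 2 * Q ≤ C * Q := by
      apply mul_le_mul_of_nonneg_right _ hQ0
      rw [hC]
      have : 0 < 2 * B + D + D * (2 * D + D ^ 2) + (2 * D + D ^ 2) * (t - s) := by positivity
      linarith
    have h7 : 0 ≤ X * Y * (t - s) := by positivity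
    nlinarith
  · -- far
    have hcase' : m ^ 4 ≤ n := not_lt.1 hcase
    have h1 := hfar (Real.log (σ m)) (Real.log (σ n)) pL2 (by linarith)
    rw [hexp, hexp, eY, eX] at h1
    have q3 : (∫ x in s..t, St (ind g) (σ m * x) * St (ind g) (σ n * x)) =
        ∫ x in s..t, fn g σ m x * fn g σ n x := rfl
    rw [q3] at h1
    have h2 := r2 m (by omega) hcase'
    have h3 : (X + D * X ^ 2) * (1 + D * Real.exp (Real.log (σ m) - c * Real.sqrt (Real.log (σ n)))) ≤
        X + (2 * D + D ^ 2) * X ^ 2 := by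
      calc (X + D * X ^ 2) * (1 + D * Real.exp (Real.log (σ m) - c * Real.sqrt (Real.log (σ n)))) ≤
          (X + D * X ^ 2) * (1 + D * X) := by
            apply mul_le_mul_of_nonneg_left _ (by positivity)
            have := mul_le_mul_of_nonneg_left h2 hD.le
            linarith
        _ = X + 2 * D * X ^ 2 + D ^ 2 * X ^ 2 * X := by ring
        _ ≤ X + 2 * D * X ^ 2 + D ^ 2 * X ^ 2 * 1 := by
            gcongr
        _ = _ := by ring
    have h4 : ∫ x in s..t, fn g σ m x * fn g σ n x ≤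
        (X + (2 * D + D ^ 2) * X ^ 2) * ((t - s) * Y + D * Y ^ 2) :=
      h1.trans (mul_le_mul_of_nonneg_right h3 (by positivity))
    have h5 : (X + (2 * D + D ^ 2) * X ^ 2) * ((t - s) * Y + D * Y ^ 2) ≤
        (t - s) * (X * Y) + (D + D * (2 * D + D ^ 2)) * (Y ^ 2 * X) +
          (2 * D + D ^ 2) * (t - s) * (Y * X ^ 2) := by
      have h6 : X ^ 2 * Y ^ 2 ≤ Y ^ 2 * X := by
        have : X ^ 2 ≤ X := by nlinarith
        nlinarith [sq_nonneg Y]
      have h7 : D * (2 * D + D ^ 2) * (X ^ 2 * Y ^ 2) ≤ D * (2 * D + D ^ 2) * (Y ^ 2 * X) :=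
        mul_le_mul_of_nonneg_left h6 (by positivity)
      nlinarith
    have hq : Y ^ 2 * X + Y * X ^ 2 ≤ qc σ m n := by
      unfold qc
      rw [if_neg (by intro h; exact hcase h.2)]
      simp [hX, hY]
    have h8 : (∫ x in s..t, fn g σ m x * fn g σ n x) - X * (∫ x in s..t, fn g σ m x) -
        Y * (∫ x in s..t, fn g σ n x) + X * Y * (t - s) ≤
        (B + D + D * (2 * D + D ^ 2)) * (Y ^ 2 * X) +
          (B + (2 * D + D ^ 2) * (t - s)) * (Y * X ^ 2) := by nlinarith
    refine h8.trans ?_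
    have h9 : (B + D + D * (2 * D + D ^ 2)) * (Y ^ 2 * X) ≤ C * (Y ^ 2 * X) := by
      apply mul_le_mul_of_nonneg_right _ (by positivity)
      rw [hC]
      have : 0 < (2 * D + D ^ 2) * (t - s) + K * A ^ 2 := by positivity
      linarith
    have h10 : (B + (2 * D + D ^ 2) * (t - s)) * (Y * X ^ 2) ≤ C * (Y * X ^ 2) := by
      apply mul_le_mul_of_nonneg_right _ (by positivity)
      rw [hC]
      have : 0 < D + D * (2 * D + D ^ 2) + K * A ^ 2 := by positivity
      linarith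
    have hC0 : 0 < C := by rw [hC]; positivity
    calc _ ≤ C * (Y ^ 2 * X) + C * (Y * X ^ 2) := add_le_add h9 h10
      _ = C * (Y ^ 2 * X + Y * X ^ 2) := by ring
      _ ≤ _ := mul_le_mul_of_nonneg_left hq hC0.le

/-- the sum of the bounds -/
theorem Gr.sum_qc (hσ : Gr σ) : ∃ C : ℝ, 0 < C ∧ ∃ P : ℕ, ∀ M n : ℕ, P ≤ M → P ≤ n →
    ∑ m ∈ Finset.Ico M n, qc σ m n ≤ C * rr σ n := by
  obtain ⟨A, hA1, n1, hn1, hf⟩ := hσ.facts
  obtain ⟨K, hK, hnear⟩ := near_sum
  have hsum : Summable fun m : ℕ => 1 / (m : ℝ) ^ 2 := Real.summable_one_div_nat_pow.2 (by norm_num)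
  set T := ∑' m : ℕ, 1 / (m : ℝ) ^ 2 with hT
  have hT0 : 0 ≤ T := tsum_nonneg fun m => by positivity
  refine ⟨A ^ 2 * T + 2 * A + K * A + 1, by positivity, n1, fun M n hM hn => ?_⟩
  obtain ⟨e1, e2, e3, e4, e5, e6⟩ := hf n hn
  have hn3 : (3 : ℝ) ≤ n := by exact_mod_cast hn1.trans hn
  have hln1 : 1 ≤ Real.log n := by
    rw [Real.le_log_iff_exp_le (by linarith)]
    have := Real.exp_one_lt_d9
    linarith
  have hX0 : 0 ≤ rr σ n := hσ.rr_nonneg n
  have hnX : (n : ℝ) * rr σ n ≤ A := by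
    calc (n : ℝ) * rr σ n ≤ n * (A * rho n) := mul_le_mul_of_nonneg_left e1 (by linarith)
      _ = A / Real.log n := by unfold rho; field_simp
      _ ≤ A := div_le_self (by linarith) hln1
  have hA0 : 0 < A := by linarith
  have hr : ∀ m ∈ Finset.Ico M n, rr σ m ^ 2 ≤ A ^ 2 * (1 / (m : ℝ) ^ 2) := by
    intro m hm
    rw [Finset.mem_Ico] at hm
    obtain ⟨f1, f2, f3, f4, f5, f6⟩ := hf m (hM.trans hm.1)
    have hm3 : (3 : ℝ) ≤ m := by exact_mod_cast hn1.trans (hM.trans hm.1)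
    have hlm1 : 1 ≤ Real.log m := by
      rw [Real.le_log_iff_exp_le (by linarith)]
      have := Real.exp_one_lt_d9
      linarith
    have h1 : rr σ m ≤ A * (1 / (m : ℝ)) := by
      refine f1.trans (mul_le_mul_of_nonneg_left ?_ hA0.le)
      unfold rho
      apply one_div_le_one_div_of_le (by linarith)
      nlinarith
    calc rr σ m ^ 2 ≤ (A * (1 / (m : ℝ))) ^ 2 := pow_le_pow_left₀ (hσ.rr_nonneg m) h1 2
      _ = _ := by ring
  unfold qc
  rw [Finset.sum_add_distrib, Finset.sum_add_distrib]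
  have s1 : ∑ m ∈ Finset.Ico M n, rr σ m ^ 2 * rr σ n ≤ A ^ 2 * T * rr σ n := by
    rw [← Finset.sum_mul]
    apply mul_le_mul_of_nonneg_right _ hX0
    refine (Finset.sum_le_sum hr).trans ?_
    rw [← Finset.mul_sum]
    apply mul_le_mul_of_nonneg_left _ (by positivity)
    exact hsum.sum_le_tsum _ fun m _ => by positivity
  have s2 : ∑ m ∈ Finset.Ico M n, rr σ m * rr σ n ^ 2 ≤ A * rr σ n := by
    calc ∑ m ∈ Finset.Ico M n, rr σ m * rr σ n ^ 2 ≤ ∑ _m ∈ Finset.Ico M n, rr σ n ^ 2 := by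
          refine Finset.sum_le_sum fun m hm => ?_
          rw [Finset.mem_Ico] at hm
          obtain ⟨f1, f2, f3, f4, f5, f6⟩ := hf m (hM.trans hm.1)
          exact mul_le_of_le_one_left (by positivity) f4
      _ = ((n - M : ℕ) : ℝ) * rr σ n ^ 2 := by
          rw [Finset.sum_const, Nat.card_Ico, nsmul_eq_mul]
      _ ≤ (n : ℝ) * rr σ n ^ 2 := by
          apply mul_le_mul_of_nonneg_right _ (by positivity)
          exact_mod_cast Nat.sub_le n M
      _ = (n * rr σ n) * rr σ n := by ring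
      _ ≤ _ := mul_le_mul_of_nonneg_right hnX hX0
  have s3 : ∑ m ∈ Finset.Ico M n, (if 2 ≤ m ∧ n < m ^ 4 then
      1 / ((m : ℝ) * Real.log m) * (1 / (((n - m : ℕ) : ℝ) * Real.log n)) else 0) ≤
      K * A * rr σ n := by
    calc _ ≤ ∑ m ∈ range n, (if 2 ≤ m ∧ n < m ^ 4 then
          1 / ((m : ℝ) * Real.log m) * (1 / (((n - m : ℕ) : ℝ) * Real.log n)) else 0) := by
          refine Finset.sum_le_sum_of_subset_of_nonneg ?_ fun m _ _ => ?_
          · intro m hm
            rw [Finset.mem_Ico] at hm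
            exact Finset.mem_range.2 hm.2
          · split_ifs with h
            · have h4 : 0 ≤ Real.log m := Real.log_natCast_nonneg m
              have h5 : 0 ≤ Real.log n := Real.log_natCast_nonneg n
              positivity
            · exact le_rfl
      _ ≤ K * (1 / ((n : ℝ) * Real.log n)) := hnear n (by omega)
      _ ≤ K * (A * rr σ n) := mul_le_mul_of_nonneg_left e2 hK.le
      _ = _ := by ring
  have : 0 ≤ A * rr σ n + rr σ n := by positivity
  linarith

end Pool.Agent.TH915.S0
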