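import Pool.Agent.TH915.S0.Th

/-!
# Means and pair correlations of the events `⌊exp ℓ * x⌋ ± 1` prime (helper915)
-/

set_option autoImplicit false

namespace Pool.Agent.TH915.S0

open Filter Topology MeasureTheory Finset

open scoped Classical

lemma prod_ion (a b : ℕ → ℝ) {θ : ℝ} (hθ : 0 ≤ θ) (u v : ℝ) :
    IntegrableOn (fun y => St a y * St b (θ * y)) (Set.Ioc u v) := by
  refine Measure.integrableOn_of_bounded
    (M := (∑ k ∈ range (⌊v⌋₊ + 1), |a k|) * ∑ k ∈ range (⌊θ * v⌋₊ + 1), |b k|) (by simp)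
    ((St_meas a).mul ((St_meas b).comp (measurable_const.mul measurable_id))).aestronglyMeasurable ?_
  refine ae_restrict_of_forall_mem measurableSet_Ioc fun x hx => ?_
  rw [Real.norm_eq_abs, abs_mul]
  unfold St
  refine mul_le_mul ?_ ?_ (abs_nonneg _) (Finset.sum_nonneg fun _ _ => abs_nonneg _)
  · refine Finset.single_le_sum (f := fun k => |a k|) (fun _ _ => abs_nonneg _) ?_
    rw [Finset.mem_range]
    exact Nat.lt_succ_of_le (Nat.floor_mono hx.2)
  · refine Finset.single_le_sum (f := fun k => |b k|) (fun _ _ => abs_nonneg _) ?_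
    rw [Finset.mem_range]
    exact Nat.lt_succ_of_le (Nat.floor_mono (mul_le_mul_of_nonneg_left hx.2 hθ))

lemma prod_ii (a b : ℕ → ℝ) {θ : ℝ} (hθ : 0 ≤ θ) (u v : ℝ) :
    IntervalIntegrable (fun y => St a y * St b (θ * y)) volume u v := by
  rcases le_total u v with h | h
  · exact (intervalIntegrable_iff_integrableOn_Ioc_of_le h).2 (prod_ion a b hθ u v)
  · exact ((intervalIntegrable_iff_integrableOn_Ioc_of_le h).2 (prod_ion a b hθ v u)).symm

lemma sc_ii (a : ℕ → ℝ) {σ : ℝ} (hσ : 0 < σ) (s t : ℝ) :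
    IntervalIntegrable (fun x => St a (σ * x)) volume s t := by
  have := (St_ii a (σ * s) (σ * t)).comp_mul_left (c := σ)
  rwa [mul_div_cancel_left₀ _ hσ.ne', mul_div_cancel_left₀ _ hσ.ne'] at this

lemma sc_int (a : ℕ → ℝ) {σ : ℝ} (hσ : 0 < σ) (s t : ℝ) :
    ∫ x in s..t, St a (σ * x) = σ⁻¹ * ∫ y in (σ * s)..(σ * t), St a y := by
  rw [intervalIntegral.integral_comp_mul_left _ hσ.ne', smul_eq_mul]

/-- the sum over cells -/
lemma cells {a b : ℕ → ℝ} (ha : ∀ k, 0 ≤ a k) (hb : ∀ k, 0 ≤ b k) {θ : ℝ} (hθ : 0 < θ) {u v : ℝ}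
    (hu : 0 ≤ u) (huv : u ≤ v) : ∫ y in u..v, St a y * St b (θ * y) ≤
      ∑ k ∈ Finset.Ico ⌊u⌋₊ ⌈v⌉₊,
        a k * (θ⁻¹ * ∫ y in (θ * (k : ℝ))..(θ * ((k + 1 : ℕ) : ℝ)), St b y) := by
  have g1 := Nat.floor_le hu
  have g2 := Nat.le_ceil v
  have hab : ⌊u⌋₊ ≤ ⌈v⌉₊ := by
    have : (⌊u⌋₊ : ℝ) ≤ (⌈v⌉₊ : ℝ) := by linarith
    exact_mod_cast this
  calc ∫ y in u..v, St a y * St b (θ * y) ≤
      ∫ y in (⌊u⌋₊ : ℝ)..(⌈v⌉₊ : ℝ), St a y * St b (θ * y) := by
        rw [intervalIntegral.integral_of_le huv, intervalIntegral.integral_of_le (by linarith)]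
        exact setIntegral_mono_set (prod_ion a b hθ.le _ _) (Eventually.of_forall fun y =>
          mul_nonneg (ha _) (hb _)) (Set.Ioc_subset_Ioc g1 g2).eventuallyLE
    _ = ∑ k ∈ Finset.Ico ⌊u⌋₊ ⌈v⌉₊, ∫ y in (k : ℝ)..((k + 1 : ℕ) : ℝ), St a y * St b (θ * y) := by
        rw [intervalIntegral.sum_integral_adjacent_intervals_Ico hab
          fun k _ => prod_ii a b hθ.le _ _]
    _ = _ := by
        refine Finset.sum_congr rfl fun k _ => ?_
        have e3 : ∫ y in (k : ℝ)..((k + 1 : ℕ) : ℝ), St a y * St b (θ * y) =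
            a k * ∫ y in (k : ℝ)..((k + 1 : ℕ) : ℝ), St b (θ * y) := by
          rw [← intervalIntegral.integral_const_mul]
          rw [intervalIntegral.integral_of_le (by push_cast; linarith),
            intervalIntegral.integral_of_le (by push_cast; linarith),
            ← integral_Ico_eq_integral_Ioc, ← integral_Ico_eq_integral_Ioc]
          refine setIntegral_congr_fun measurableSet_Ico fun y hy => ?_
          have h2 : ⌊y⌋₊ = k := by
            rw [Nat.floor_eq_iff (le_trans (Nat.cast_nonneg k) hy.1)]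
            exact ⟨hy.1, by have := hy.2; push_cast at this; exact this⟩
          show St a y * St b (θ * y) = a k * St b (θ * y)
          unfold St
          rw [h2]
        rw [e3, sc_int b hθ]

/-- the loss in the logarithm -/
noncomputable def Dl (s t : ℝ) : ℝ := |Real.log (s / 2)| + |Real.log (2 * t)|

lemma Dl_nonneg (s t : ℝ) : 0 ≤ Dl s t := by unfold Dl; positivity

/-- pointwise comparison -/
lemma ptw {g : ℕ → ℕ} (hg : Sh g) {s t ℓ x : ℝ} (hs : 0 < s) (hx1 : s ≤ x) (hx2 : x ≤ t)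
    (h4 : 4 ≤ Real.exp ℓ * s) :
    (ℓ - Dl s t) * St (ind g) (Real.exp ℓ * x) ≤ St (th g) (Real.exp ℓ * x) ∧
    St (th g) (Real.exp ℓ * x) ≤ (ℓ + Dl s t) * St (ind g) (Real.exp ℓ * x) := by
  have hx0 : 0 < x := by linarith
  have hσ := Real.exp_pos ℓ
  set y := Real.exp ℓ * x with hy
  have hy4 : 4 ≤ y := h4.trans (mul_le_mul_of_nonneg_left hx1 hσ.le)
  have f1 := Nat.floor_le (show 0 ≤ y by linarith)
  have f2 := Nat.lt_floor_add_one y
  have hk4 : 4 ≤ ⌊y⌋₊ := Nat.le_floor (by exact_mod_cast hy4)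
  have hgk : y / 2 ≤ (g ⌊y⌋₊ : ℝ) ∧ (g ⌊y⌋₊ : ℝ) ≤ 2 * y := by
    rw [hg]
    constructor <;> linarith
  have hlog1 : ℓ - Dl s t ≤ Real.log (g ⌊y⌋₊) := by
    have h1 : Real.log (y / 2) ≤ Real.log (g ⌊y⌋₊) := Real.log_le_log (by linarith) hgk.1
    have h2 : Real.log (y / 2) = ℓ + Real.log (x / 2) := by
      rw [hy, mul_div_assoc, Real.log_mul hσ.ne' (by positivity), Real.log_exp]
    have h3 : Real.log (s / 2) ≤ Real.log (x / 2) := Real.log_le_log (by positivity) (by linarith)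
    have h5 := neg_abs_le (Real.log (s / 2))
    have h6 := abs_nonneg (Real.log (2 * t))
    unfold Dl
    linarith
  have hlog2 : Real.log (g ⌊y⌋₊) ≤ ℓ + Dl s t := by
    have h1 : Real.log (g ⌊y⌋₊) ≤ Real.log (2 * y) := Real.log_le_log (by linarith) hgk.2
    have h2 : Real.log (2 * y) = ℓ + Real.log (2 * x) := by
      rw [hy, show 2 * (Real.exp ℓ * x) = Real.exp ℓ * (2 * x) by ring,
        Real.log_mul hσ.ne' (by positivity), Real.log_exp]
    have h3 : Real.log (2 * x) ≤ Real.log (2 * t) := Real.log_le_log (by positivity) (by linarith)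
    have h5 := le_abs_self (Real.log (2 * t))
    have h6 := abs_nonneg (Real.log (s / 2))
    unfold Dl
    linarith
  have h0 := ind_nonneg g ⌊y⌋₊
  unfold St
  rw [th_eq]
  constructor
  · rw [mul_comm]; exact mul_le_mul_of_nonneg_left hlog1 h0
  · rw [mul_comm (ℓ + _)]; exact mul_le_mul_of_nonneg_left hlog2 h0

lemma exp_small {c : ℝ} (hc : 0 < c) {L : ℝ} (hL : 0 < L) :
    Real.exp (-(c * Real.sqrt L)) ≤ 2 / c ^ 2 / L := by
  have h1 := Real.quadratic_le_exp_of_nonneg (show 0 ≤ c * Real.sqrt L by positivity)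
  have h3 : Real.sqrt L ^ 2 = L := Real.sq_sqrt hL.le
  have h4 : c ^ 2 * L / 2 ≤ Real.exp (c * Real.sqrt L) := by
    have h5 : 0 ≤ c * Real.sqrt L := by positivity
    have h6 : (c * Real.sqrt L) ^ 2 = c ^ 2 * L := by rw [mul_pow, h3]
    rw [h6] at h1
    linarith
  rw [Real.exp_neg, inv_le_comm₀ (Real.exp_pos _) (by positivity)]
  refine le_trans (le_of_eq ?_) h4
  field_simp

/-- **The mean.** -/
theorem mean_est {g : ℕ → ℕ} (hg : Sh g) {s t : ℝ} (hs : 0 < s) (hst : s < t) :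
    ∃ A L0 : ℝ, 0 < A ∧ 1 ≤ L0 ∧ ∀ ℓ : ℝ, L0 ≤ ℓ →
      |(∫ x in s..t, St (ind g) (Real.exp ℓ * x)) - (t - s) * (1 / ℓ)| ≤ A * (1 / ℓ) ^ 2 := by
  obtain ⟨c, C, hc, hC, hp⟩ := pnt_sub hg
  have ht : 0 < t := hs.trans hst
  have hts : 0 < t - s := by linarith
  set D := Dl s t with hD
  have hD0 : 0 ≤ D := Dl_nonneg s t
  set A1 : ℝ := C * t * (2 / c ^ 2 * 2) with hA1
  have hA10 : 0 < A1 := by positivity
  have hev : ∀ᶠ ℓ : ℝ in atTop, 1 ≤ ℓ ∧ 2 * D ≤ ℓ ∧ 4 ≤ Real.exp ℓ * s ∧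
      Real.exp (ℓ / 2) ≤ Real.exp ℓ * s := by
    have h1 : Tendsto (fun ℓ : ℝ => Real.exp ℓ * s) atTop atTop :=
      Real.tendsto_exp_atTop.atTop_mul_const hs
    have h2 : Tendsto (fun ℓ : ℝ => Real.exp (ℓ / 2) * s) atTop atTop :=
      (Real.tendsto_exp_atTop.comp (tendsto_id.atTop_div_const two_pos)).atTop_mul_const hs
    filter_upwards [eventually_ge_atTop 1, eventually_ge_atTop (2 * D), h1.eventually_ge_atTop 4,
      h2.eventually_ge_atTop 1] with ℓ a1 a2 a3 a4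
    refine ⟨a1, a2, a3, ?_⟩
    have e : Real.exp ℓ = Real.exp (ℓ / 2) * Real.exp (ℓ / 2) := by
      rw [← Real.exp_add]; ring_nf
    rw [e, mul_assoc]
    exact le_mul_of_one_le_right (Real.exp_pos _).le a4
  obtain ⟨L0, hL0⟩ := eventually_atTop.1 hev
  refine ⟨D * (2 * ((t - s) + A1)) + A1, max L0 1, by positivity, le_max_right _ _, fun ℓ hℓ => ?_⟩
  obtain ⟨a1, a2, a3, a4⟩ := hL0 ℓ ((le_max_left _ _).trans hℓ)
  have hℓ0 : 0 < ℓ := by linarith
  have hσ := Real.exp_pos ℓ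
  set I := ∫ x in s..t, St (ind g) (Real.exp ℓ * x) with hI
  set J := ∫ x in s..t, St (th g) (Real.exp ℓ * x) with hJ
  have hJ1 : |J - (t - s)| ≤ A1 / ℓ := by
    have h1 := hp (ℓ / 2) (Real.exp ℓ * s) (Real.exp ℓ * t) (by positivity) a4
      (mul_le_mul_of_nonneg_left hst.le hσ.le)
    have h2 := exp_small hc (show 0 < ℓ / 2 by positivity)
    rw [hJ, sc_int _ hσ]
    have e : (Real.exp ℓ)⁻¹ * (∫ y in (Real.exp ℓ * s)..(Real.exp ℓ * t), St (th g) y) - (t - s) =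
        (Real.exp ℓ)⁻¹ * ((∫ y in (Real.exp ℓ * s)..(Real.exp ℓ * t), St (th g) y) -
          (Real.exp ℓ * t - Real.exp ℓ * s)) := by
      field_simp
    rw [e, abs_mul, abs_of_pos (inv_pos.2 hσ)]
    calc (Real.exp ℓ)⁻¹ * |(∫ y in (Real.exp ℓ * s)..(Real.exp ℓ * t), St (th g) y) -
          (Real.exp ℓ * t - Real.exp ℓ * s)| ≤ (Real.exp ℓ)⁻¹ *
          (C * (Real.exp ℓ * t * (2 / c ^ 2 / (ℓ / 2)))) := by
          apply mul_le_mul_of_nonneg_left _ (inv_pos.2 hσ).le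
          refine h1.trans ?_
          gcongr
      _ = _ := by rw [hA1]; field_simp
  have hI0 : 0 ≤ I := intervalIntegral.integral_nonneg hst.le fun x _ => ind_nonneg g _
  have c1 : (ℓ - D) * I ≤ J := by
    rw [hI, hJ, ← intervalIntegral.integral_const_mul]
    exact intervalIntegral.integral_mono_on hst.le ((sc_ii _ hσ s t).const_mul _)
      (sc_ii _ hσ s t) fun x hx => (ptw hg hs hx.1 hx.2 a3).1
  have c2 : J ≤ (ℓ + D) * I := by
    rw [hI, hJ, ← intervalIntegral.integral_const_mul]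
    exact intervalIntegral.integral_mono_on hst.le (sc_ii _ hσ s t)
      ((sc_ii _ hσ s t).const_mul _) fun x hx => (ptw hg hs hx.1 hx.2 a3).2
  have hA1ℓ : A1 / ℓ ≤ A1 := by
    rw [div_le_iff₀ hℓ0]; nlinarith
  obtain ⟨b1, b2⟩ := abs_le.1 hJ1
  have hIb : I * ℓ ≤ 2 * ((t - s) + A1) := by
    have h1 : ℓ / 2 * I ≤ (ℓ - D) * I := mul_le_mul_of_nonneg_right (by linarith) hI0
    linarith
  have hDI : D * I ≤ D * (2 * ((t - s) + A1)) / ℓ := by
    rw [le_div_iff₀ hℓ0, mul_assoc]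
    exact mul_le_mul_of_nonneg_left hIb hD0
  have key : |ℓ * I - (t - s)| ≤ (D * (2 * ((t - s) + A1)) + A1) / ℓ := by
    rw [add_div, abs_le]
    constructor <;> linarith
  have e2 : I - (t - s) * (1 / ℓ) = (1 / ℓ) * (ℓ * I - (t - s)) := by field_simp
  rw [e2, abs_mul, abs_of_pos (by positivity : 0 < 1 / ℓ)]
  calc 1 / ℓ * |ℓ * I - (t - s)| ≤ 1 / ℓ * ((D * (2 * ((t - s) + A1)) + A1) / ℓ) :=
        mul_le_mul_of_nonneg_left key (by positivity)
    _ = _ := by field_simp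

/-- **Near pairs.** -/
theorem near_est {g : ℕ → ℕ} (hg : Sh g) {s t : ℝ} (hs : 0 < s) (hst : s < t) :
    ∃ K L0 : ℝ, 0 < K ∧ 1 ≤ L0 ∧ ∀ ℓ L : ℝ, L0 ≤ ℓ → ℓ + 1 ≤ L →
      ∫ x in s..t, St (ind g) (Real.exp ℓ * x) * St (ind g) (Real.exp L * x) ≤
        K * ((1 / ℓ) * (1 / (L - ℓ))) := by
  obtain ⟨C, hC, hbt⟩ := bt hg
  have ht : 0 < t := hs.trans hst
  have hts : 0 < t - s := by linarith
  have hev : ∀ᶠ ℓ : ℝ in atTop, 1 ≤ ℓ ∧ 2 ≤ Real.exp ℓ * (t - s) ∧
      ℓ / 2 ≤ Real.log (Real.exp ℓ * (t - s)) := by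
    have h1 : Tendsto (fun ℓ : ℝ => Real.exp ℓ * (t - s)) atTop atTop :=
      Real.tendsto_exp_atTop.atTop_mul_const hts
    have h2 : Tendsto (fun ℓ : ℝ => ℓ / 2) atTop atTop := tendsto_id.atTop_div_const two_pos
    filter_upwards [eventually_ge_atTop 1, h1.eventually_ge_atTop 2,
      h2.eventually_ge_atTop (-Real.log (t - s))] with ℓ a1 a2 a3
    refine ⟨a1, a2, ?_⟩
    rw [Real.log_mul (Real.exp_pos _).ne' hts.ne', Real.log_exp]
    linarith
  obtain ⟨L0, hL0⟩ := eventually_atTop.1 hev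
  refine ⟨C * (t - s) * 2 * C, max L0 1, by positivity, le_max_right _ _, fun ℓ L hℓ hL => ?_⟩
  obtain ⟨a1, a2, a3⟩ := hL0 ℓ ((le_max_left _ _).trans hℓ)
  have hℓ0 : 0 < ℓ := by linarith
  have hσ := Real.exp_pos ℓ
  set σ := Real.exp ℓ with hσd
  set θ := Real.exp (L - ℓ) with hθd
  have hθ : 0 < θ := Real.exp_pos _
  have hδ : 1 ≤ L - ℓ := by linarith
  have hθ2 : 2 ≤ θ := by
    have := Real.add_one_le_exp (L - ℓ)
    linarith
  have hlθ : Real.log θ = L - ℓ := Real.log_exp _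
  have hσθ : Real.exp L = θ * σ := by rw [hθd, hσd, ← Real.exp_add]; ring_nf
  have e1 : ∫ x in s..t, St (ind g) (σ * x) * St (ind g) (Real.exp L * x) =
      σ⁻¹ * ∫ y in (σ * s)..(σ * t), St (ind g) y * St (ind g) (θ * y) := by
    have e2 : ∀ x, St (ind g) (σ * x) * St (ind g) (Real.exp L * x) =
        (fun y => St (ind g) y * St (ind g) (θ * y)) (σ * x) := by
      intro x
      simp only
      rw [hσθ, mul_assoc]
    simp only [e2]
    rw [intervalIntegral.integral_comp_mul_left (fun y => St (ind g) y * St (ind g) (θ * y)) hσ.ne',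
      smul_eq_mul]
  have hσts : σ * t - σ * s = σ * (t - s) := by ring
  obtain ⟨b1, _⟩ := hbt (σ * s) (σ * t) (by positivity) (by rw [hσts]; exact a2)
  rw [hσts] at b1
  have hB : C * (σ * (t - s)) / Real.log (σ * (t - s)) ≤ σ * (C * (t - s) * 2 * (1 / ℓ)) := by
    calc C * (σ * (t - s)) / Real.log (σ * (t - s)) ≤ C * (σ * (t - s)) / (ℓ / 2) :=
          div_le_div_of_nonneg_left (by positivity) (by positivity) a3
      _ = _ := by field_simp
  have hcell := cells (ind_nonneg g) (ind_nonneg g) hθ (show 0 ≤ σ * s by positivity)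
    (mul_le_mul_of_nonneg_left hst.le hσ.le)
  have h3 : ∀ k : ℕ, θ⁻¹ * ∫ y in (θ * (k : ℝ))..(θ * ((k + 1 : ℕ) : ℝ)), St (ind g) y ≤
      C / (L - ℓ) := by
    intro k
    have hk : θ * ((k + 1 : ℕ) : ℝ) - θ * k = θ := by push_cast; ring
    obtain ⟨_, c2⟩ := hbt (θ * k) (θ * ((k + 1 : ℕ) : ℝ)) (by positivity) (by rw [hk]; exact hθ2)
    rw [hk, hlθ] at c2
    calc θ⁻¹ * ∫ y in (θ * k)..(θ * ((k + 1 : ℕ) : ℝ)), St (ind g) y ≤ θ⁻¹ * (C * θ / (L - ℓ)) :=
          mul_le_mul_of_nonneg_left c2 (by positivity)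
      _ = C / (L - ℓ) := by field_simp
  rw [e1]
  have h4 : ∫ y in (σ * s)..(σ * t), St (ind g) y * St (ind g) (θ * y) ≤
      σ * (C * (t - s) * 2 * (1 / ℓ)) * (C / (L - ℓ)) := by
    refine hcell.trans ?_
    calc _ ≤ ∑ k ∈ Finset.Ico ⌊σ * s⌋₊ ⌈σ * t⌉₊, ind g k * (C / (L - ℓ)) :=
          Finset.sum_le_sum fun k _ => mul_le_mul_of_nonneg_left (h3 k) (ind_nonneg g k)
      _ = (∑ k ∈ Finset.Ico ⌊σ * s⌋₊ ⌈σ * t⌉₊, ind g k) * (C / (L - ℓ)) := by
          rw [Finset.sum_mul]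
      _ ≤ _ := mul_le_mul_of_nonneg_right (b1.trans hB) (by
          have : 0 < L - ℓ := by linarith
          positivity)
  calc σ⁻¹ * ∫ y in (σ * s)..(σ * t), St (ind g) y * St (ind g) (θ * y) ≤
      σ⁻¹ * (σ * (C * (t - s) * 2 * (1 / ℓ)) * (C / (L - ℓ))) :=
        mul_le_mul_of_nonneg_left h4 (inv_pos.2 hσ).le
    _ = _ := by
        have : L - ℓ ≠ 0 := by linarith
        field_simp

/-- **Far pairs.** -/
theorem far_est {g : ℕ → ℕ} (hg : Sh g) {s t : ℝ} (hs : 0 < s) (hst : s < t) :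
    ∃ c A L0 : ℝ, 0 < c ∧ 0 < A ∧ 1 ≤ L0 ∧ ∀ ℓ L : ℝ, L0 ≤ ℓ → ℓ ≤ L →
      ∫ x in s..t, St (ind g) (Real.exp ℓ * x) * St (ind g) (Real.exp L * x) ≤
        (1 / L + A * (1 / L) ^ 2) * (1 + A * Real.exp (ℓ - c * Real.sqrt L)) *
          ((t - s) * (1 / ℓ) + A * (1 / ℓ) ^ 2) := by
  obtain ⟨c, C, hc, hC, hp⟩ := pnt_sub hg
  obtain ⟨A1, L1, hA1, hL1, hmean⟩ := mean_est hg hs hst
  have ht : 0 < t := hs.trans hst
  have hts : 0 < t - s := by linarith
  set D := Dl s t with hD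
  have hD0 : 0 ≤ D := Dl_nonneg s t
  have hev : ∀ᶠ ℓ : ℝ in atTop, 1 ≤ ℓ ∧ 2 * D ≤ ℓ ∧ 4 ≤ Real.exp ℓ * s ∧
      1 ≤ Real.exp (ℓ / 2) * (s / 2) ∧ 2 ≤ Real.exp ℓ * s ∧ 1 ≤ Real.exp ℓ * t := by
    have h1 : Tendsto (fun ℓ : ℝ => Real.exp ℓ * s) atTop atTop :=
      Real.tendsto_exp_atTop.atTop_mul_const hs
    have h1' : Tendsto (fun ℓ : ℝ => Real.exp ℓ * t) atTop atTop :=
      Real.tendsto_exp_atTop.atTop_mul_const ht
    have h2 : Tendsto (fun ℓ : ℝ => Real.exp (ℓ / 2) * (s / 2)) atTop atTop :=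
      (Real.tendsto_exp_atTop.comp (tendsto_id.atTop_div_const two_pos)).atTop_mul_const
        (by positivity)
    filter_upwards [eventually_ge_atTop 1, eventually_ge_atTop (2 * D), h1.eventually_ge_atTop 4,
      h2.eventually_ge_atTop 1, h1.eventually_ge_atTop 2, h1'.eventually_ge_atTop 1] with ℓ a1 a2 a3
      a4 a5 a6
    exact ⟨a1, a2, a3, a4, a5, a6⟩
  obtain ⟨L0, hL0⟩ := eventually_atTop.1 hev
  have hcs : c * Real.sqrt (1 / 2) > 0 := by positivity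
  refine ⟨c * Real.sqrt (1 / 2), 2 * D + 2 * C * t + A1 + 4, max (max L0 L1) 1, hcs, by positivity,
    le_max_right _ _, fun ℓ L hℓ hL => ?_⟩
  set A := 2 * D + 2 * C * t + A1 + 4 with hA
  have hA0 : 0 < A := by positivity
  have hℓL0 : L0 ≤ ℓ := (le_max_left _ _).trans ((le_max_left _ _).trans hℓ)
  have hℓL1 : L1 ≤ ℓ := (le_max_right _ _).trans ((le_max_left _ _).trans hℓ)
  obtain ⟨a1, a2, a3, a4, a5, a6⟩ := hL0 ℓ hℓL0
  obtain ⟨b1, b2, b3, b4, b5, b6⟩ := hL0 L (hℓL0.trans hL)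
  have hℓ0 : 0 < ℓ := by linarith
  have hLp : 0 < L := by linarith
  have hm := hmean ℓ hℓL1
  have hσ := Real.exp_pos ℓ
  set σ := Real.exp ℓ with hσd
  set θ := Real.exp (L - ℓ) with hθd
  have hθ : 0 < θ := Real.exp_pos _
  have hσθ : Real.exp L = θ * σ := by rw [hθd, hσd, ← Real.exp_add]; ring_nf
  -- replace the second indicator by the weights
  have h1 : ∫ x in s..t, St (ind g) (σ * x) * St (ind g) (Real.exp L * x) ≤
      (1 / L + A * (1 / L) ^ 2) * ∫ x in s..t, St (ind g) (σ * x) * St (th g) (Real.exp L * x) := by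
    have i1 : ∀ b : ℕ → ℝ, IntervalIntegrable (fun x => St (ind g) (σ * x) * St b (Real.exp L * x))
        volume s t := by
      intro b
      have h2 := (prod_ii (ind g) b hθ.le (σ * s) (σ * t)).comp_mul_left (c := σ)
      rw [mul_div_cancel_left₀ _ hσ.ne', mul_div_cancel_left₀ _ hσ.ne'] at h2
      refine h2.congr fun x _ => ?_
      show St (ind g) (σ * x) * St b (θ * (σ * x)) = St (ind g) (σ * x) * St b (Real.exp L * x)
      rw [hσθ, mul_assoc]
    rw [← intervalIntegral.integral_const_mul]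
    refine intervalIntegral.integral_mono_on hst.le (i1 _) ((i1 _).const_mul _) fun x hx => ?_
    have h2 := (ptw hg hs hx.1 hx.2 b3).1
    rw [← hD] at h2
    have h3 : 0 ≤ St (ind g) (Real.exp L * x) := ind_nonneg g _
    have h4 : 0 ≤ St (ind g) (σ * x) := ind_nonneg g _
    have h5 : 0 ≤ St (th g) (Real.exp L * x) := th_nonneg g _
    have h6 : 1 ≤ (1 / L + A * (1 / L) ^ 2) * (L - D) := by
      have h7 : (1 / L + A * (1 / L) ^ 2) * (L - D) = 1 + (A * (L - D) - D * L) / L ^ 2 := by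
        field_simp; ring
      rw [h7]
      have h8 : D * L ≤ A * (L - D) := by
        have h9 : 2 * D ≤ A := by
          rw [hA]
          have : 0 ≤ 2 * C * t := by positivity
          linarith
        have h10 : L / 2 ≤ L - D := by linarith
        calc D * L = (2 * D) * (L / 2) := by ring
          _ ≤ A * (L - D) := mul_le_mul h9 h10 (by positivity) hA0.le
      have : 0 ≤ (A * (L - D) - D * L) / L ^ 2 := div_nonneg (by linarith) (by positivity)
      linarith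
    have h7 : St (ind g) (Real.exp L * x) ≤ (1 / L + A * (1 / L) ^ 2) * St (th g) (Real.exp L * x) := by
      calc St (ind g) (Real.exp L * x) ≤ ((1 / L + A * (1 / L) ^ 2) * (L - D)) *
            St (ind g) (Real.exp L * x) := le_mul_of_one_le_left h3 h6
        _ = (1 / L + A * (1 / L) ^ 2) * ((L - D) * St (ind g) (Real.exp L * x)) := by ring
        _ ≤ _ := mul_le_mul_of_nonneg_left h2 (by positivity)
    calc St (ind g) (σ * x) * St (ind g) (Real.exp L * x) ≤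
        St (ind g) (σ * x) * ((1 / L + A * (1 / L) ^ 2) * St (th g) (Real.exp L * x)) :=
          mul_le_mul_of_nonneg_left h7 h4
      _ = _ := by ring
  have e1 : ∫ x in s..t, St (ind g) (σ * x) * St (th g) (Real.exp L * x) =
      σ⁻¹ * ∫ y in (σ * s)..(σ * t), St (ind g) y * St (th g) (θ * y) := by
    have e2 : ∀ x, St (ind g) (σ * x) * St (th g) (Real.exp L * x) =
        (fun y => St (ind g) y * St (th g) (θ * y)) (σ * x) := by
      intro x
      simp only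
      rw [hσθ, mul_assoc]
    simp only [e2]
    rw [intervalIntegral.integral_comp_mul_left (fun y => St (ind g) y * St (th g) (θ * y)) hσ.ne',
      smul_eq_mul]
  have hcell := cells (ind_nonneg g) (th_nonneg g) hθ (show 0 ≤ σ * s by positivity)
    (mul_le_mul_of_nonneg_left hst.le hσ.le)
  have hη : Real.exp (-(c * Real.sqrt (L / 2))) = Real.exp (-(c * Real.sqrt (1 / 2) * Real.sqrt L)) := by
    rw [show L / 2 = 1 / 2 * L by ring, Real.sqrt_mul (by norm_num), mul_assoc]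
  set η := 1 + A * Real.exp (ℓ - c * Real.sqrt (1 / 2) * Real.sqrt L) with hηd
  have hη0 : 0 < η := by positivity
  have hu0 : 0 ≤ σ * s := by positivity
  have hv0 : 0 ≤ σ * t := by positivity
  have f1 := Nat.floor_le hu0
  have f2 := Nat.lt_floor_add_one (σ * s)
  have f3 := Nat.ceil_lt_add_one hv0
  have f4 := Nat.le_ceil (σ * t)
  have h3 : ∀ k ∈ Finset.Ico ⌊σ * s⌋₊ ⌈σ * t⌉₊,
      θ⁻¹ * ∫ y in (θ * (k : ℝ))..(θ * ((k + 1 : ℕ) : ℝ)), St (th g) y ≤ η := by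
    intro k hk
    rw [Finset.mem_Ico] at hk
    have hk1 : (⌊σ * s⌋₊ : ℝ) ≤ k := by exact_mod_cast hk.1
    have hk2 : ((k + 1 : ℕ) : ℝ) ≤ (⌈σ * t⌉₊ : ℝ) := by exact_mod_cast hk.2
    have hk3 : σ * s / 2 ≤ k := by linarith
    have hk4 : ((k + 1 : ℕ) : ℝ) ≤ 2 * (σ * t) := by linarith
    have h5 : Real.exp (L / 2) ≤ θ * k := by
      have e : Real.exp L = Real.exp (L / 2) * Real.exp (L / 2) := by
        rw [← Real.exp_add]; ring_nf
      calc Real.exp (L / 2) ≤ Real.exp (L / 2) * (Real.exp (L / 2) * (s / 2)) :=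
            le_mul_of_one_le_right (Real.exp_pos _).le b4
        _ = θ * (σ * s / 2) := by
            rw [← mul_assoc, ← e, hσθ]; ring
        _ ≤ θ * k := mul_le_mul_of_nonneg_left hk3 hθ.le
    have h6 := hp (L / 2) (θ * k) (θ * ((k + 1 : ℕ) : ℝ)) (by positivity) h5
      (mul_le_mul_of_nonneg_left (by push_cast; linarith) hθ.le)
    have h7 := (abs_le.1 h6).2
    have hk : θ * ((k + 1 : ℕ) : ℝ) - θ * k = θ := by push_cast; ring
    rw [hk, hη] at h7
    set E := Real.exp (-(c * Real.sqrt (1 / 2) * Real.sqrt L)) with hE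
    have hE0 : 0 < E := Real.exp_pos _
    have h8 : ∫ y in (θ * (k : ℝ))..(θ * ((k + 1 : ℕ) : ℝ)), St (th g) y ≤
        θ * (1 + A * (σ * E)) := by
      have h9 : C * (θ * ((k + 1 : ℕ) : ℝ) * E) ≤ θ * (A * (σ * E)) := by
        calc C * (θ * ((k + 1 : ℕ) : ℝ) * E) ≤ C * (θ * (2 * (σ * t)) * E) := by gcongr
          _ = θ * ((2 * C * t) * (σ * E)) := by ring
          _ ≤ θ * (A * (σ * E)) := by
              apply mul_le_mul_of_nonneg_left _ hθ.le
              apply mul_le_mul_of_nonneg_right _ (by positivity)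
              rw [hA]; linarith
      linarith
    have e5 : Real.exp (ℓ - c * Real.sqrt (1 / 2) * Real.sqrt L) = σ * E := by
      rw [hσd, hE, ← Real.exp_add]; ring_nf
    rw [hηd, e5]
    calc θ⁻¹ * ∫ y in (θ * (k : ℝ))..(θ * ((k + 1 : ℕ) : ℝ)), St (th g) y ≤
        θ⁻¹ * (θ * (1 + A * (σ * E))) := mul_le_mul_of_nonneg_left h8 (inv_pos.2 hθ).le
      _ = _ := by field_simp
  have h4 : ∑ k ∈ Finset.Ico ⌊σ * s⌋₊ ⌈σ * t⌉₊, ind g k ≤
      (∫ y in (σ * s)..(σ * t), St (ind g) y) + 2 := by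
    have hab : ⌊σ * s⌋₊ ≤ ⌈σ * t⌉₊ := by
      have h5 : σ * s ≤ σ * t := mul_le_mul_of_nonneg_left hst.le hσ.le
      have : (⌊σ * s⌋₊ : ℝ) ≤ (⌈σ * t⌉₊ : ℝ) := by linarith
      exact_mod_cast this
    rw [← St_nat (ind g) hab]
    have h5 := intervalIntegral.integral_add_adjacent_intervals
      (St_ii (ind g) (⌊σ * s⌋₊ : ℝ) (σ * s)) (St_ii (ind g) (σ * s) (σ * t))
    have h6 := intervalIntegral.integral_add_adjacent_intervals
      (St_ii (ind g) (⌊σ * s⌋₊ : ℝ) (σ * t)) (St_ii (ind g) (σ * t) (⌈σ * t⌉₊ : ℝ))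
    have h7 : ∀ u v : ℝ, u ≤ v → v ≤ u + 1 → ∫ y in u..v, St (ind g) y ≤ 1 := by
      intro u v h8 h9
      have h10 : ∫ y in u..v, St (ind g) y ≤ ∫ _y in u..v, (1 : ℝ) :=
        intervalIntegral.integral_mono_on h8 (St_ii _ _ _) intervalIntegrable_const
          fun y _ => ind_le_one g _
      simp only [intervalIntegral.integral_const, smul_eq_mul, mul_one] at h10
      linarith
    have h8 := h7 (⌊σ * s⌋₊ : ℝ) (σ * s) f1 f2.le
    have h9 := h7 (σ * t) (⌈σ * t⌉₊ : ℝ) f4 f3.le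
    linarith
  have h5 : ∫ y in (σ * s)..(σ * t), St (ind g) y * St (th g) (θ * y) ≤
      ((∫ y in (σ * s)..(σ * t), St (ind g) y) + 2) * η := by
    refine hcell.trans ?_
    calc _ ≤ ∑ k ∈ Finset.Ico ⌊σ * s⌋₊ ⌈σ * t⌉₊, ind g k * η :=
          Finset.sum_le_sum fun k hk => mul_le_mul_of_nonneg_left (h3 k hk) (ind_nonneg g k)
      _ = (∑ k ∈ Finset.Ico ⌊σ * s⌋₊ ⌈σ * t⌉₊, ind g k) * η := by
          rw [Finset.sum_mul]
      _ ≤ _ := mul_le_mul_of_nonneg_right h4 hη0.le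
  have h6 : σ⁻¹ * ((∫ y in (σ * s)..(σ * t), St (ind g) y) + 2) ≤
      (t - s) * (1 / ℓ) + A * (1 / ℓ) ^ 2 := by
    rw [mul_add, ← sc_int _ hσ]
    have h7 := (abs_le.1 hm).2
    have h8 : σ⁻¹ * 2 ≤ 4 * (1 / ℓ) ^ 2 := by
      have h9 := Real.quadratic_le_exp_of_nonneg hℓ0.le
      have h10 : ℓ ^ 2 / 2 ≤ σ := by rw [hσd]; linarith
      rw [inv_mul_le_iff₀ hσ, one_div, inv_pow]
      rw [show σ * (4 * (ℓ ^ 2)⁻¹) = 4 * σ / ℓ ^ 2 by field_simp, le_div_iff₀ (by positivity)]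
      linarith
    have h9 : (A1 + 4) * (1 / ℓ) ^ 2 ≤ A * (1 / ℓ) ^ 2 := by
      apply mul_le_mul_of_nonneg_right _ (by positivity)
      rw [hA]
      have : 0 ≤ 2 * C * t := by positivity
      linarith
    linarith
  calc ∫ x in s..t, St (ind g) (σ * x) * St (ind g) (Real.exp L * x) ≤ _ := h1
    _ ≤ (1 / L + A * (1 / L) ^ 2) *
        (σ⁻¹ * (((∫ y in (σ * s)..(σ * t), St (ind g) y) + 2) * η)) := by
        rw [e1]
        apply mul_le_mul_of_nonneg_left _ (by positivity)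
        exact mul_le_mul_of_nonneg_left h5 (inv_pos.2 hσ).le
    _ = (1 / L + A * (1 / L) ^ 2) * η * (σ⁻¹ * ((∫ y in (σ * s)..(σ * t), St (ind g) y) + 2)) := by
        ring
    _ ≤ _ := mul_le_mul_of_nonneg_left h6 (by positivity)

end Pool.Agent.TH915.S0
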