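import Pool.Agent.TH915.S0.Cov
import Pool.Agent.TH915.SL.SqrtLaw

/-!
# The almost everywhere law (helper915)
-/

set_option autoImplicit false

namespace Pool.Agent.TH915.S0

open Filter Topology MeasureTheory Finset

open scoped Classical

open Pool.Agent.TH915.SL (sqrt_law)

variable {σ : ℕ → ℝ}

/-- the indicator of a set of indices -/
noncomputable def wi (S : Set ℕ) (n : ℕ) : ℝ := if n ∈ S then 1 else 0

lemma wi_nonneg (S : Set ℕ) (n : ℕ) : 0 ≤ wi S n := by unfold wi; split_ifs <;> norm_num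

lemma wi_le_one (S : Set ℕ) (n : ℕ) : wi S n ≤ 1 := by unfold wi; split_ifs <;> norm_num

/-- block variances -/
theorem var_bound {g : ℕ → ℕ} (hg : Sh g) (hσ : Gr σ) (S : Set ℕ) {s t : ℝ} (hs : 0 < s)
    (hst : s < t) : ∃ C : ℝ, 0 ≤ C ∧ ∃ P : ℕ, ∀ M N : ℕ, P ≤ M → M ≤ N →
      ∫ x in Set.Ioc s t, (∑ n ∈ Finset.Ico M N, (wi S n * fn g σ n x - wi S n * rr σ n)) ^ 2 ≤
        C * ∑ n ∈ Finset.Ico M N, wi S n * rr σ n := by
  obtain ⟨C1, hC1, P1, hP1, hcov⟩ := cov hg hσ hs hst
  obtain ⟨C2, hC2, P2, hsum⟩ := hσ.sum_qc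
  obtain ⟨A, hA1, n1, hn1, hf⟩ := hσ.facts
  obtain ⟨B, L0, hB, hL0, hmean⟩ := mean_est hg hs hst
  have hts : 0 < t - s := by linarith
  have hℓt : Tendsto (fun n : ℕ => Real.log (σ n)) atTop atTop := by
    have h1 : Tendsto (fun n : ℕ => (n : ℝ) * (1 / A)) atTop atTop :=
      tendsto_natCast_atTop_atTop.atTop_mul_const (by positivity)
    refine tendsto_atTop_mono' _ ?_ h1
    filter_upwards [eventually_ge_atTop n1] with n hn
    obtain ⟨f1, f2, f3, f4, f5, f6⟩ := hf n hn
    have hn3 : (3 : ℝ) ≤ n := by exact_mod_cast hn1.trans hn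
    have hln1 : 1 ≤ Real.log n := by
      rw [Real.le_log_iff_exp_le (by linarith)]
      have := Real.exp_one_lt_d9
      linarith
    unfold rho rr at f1
    rw [mul_one_div, div_le_div_iff₀ (by linarith) (by positivity)] at f1
    rw [mul_one_div, div_le_iff₀ (by linarith)]
    nlinarith
  obtain ⟨P3, hP3⟩ := eventually_atTop.1 (hℓt.eventually_ge_atTop L0)
  -- the terms
  set Z : ℕ → ℝ → ℝ := fun n x => wi S n * fn g σ n x - wi S n * rr σ n with hZ
  have hZm : ∀ n, Measurable (Z n) := fun n =>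
    ((fn_meas g σ n).const_mul _).sub measurable_const
  have hZb : ∀ n x, |Z n x| ≤ 3 := by
    intro n x
    have h1 := wi_nonneg S n
    have h2 := wi_le_one S n
    have h3 := fn_nonneg g σ n x
    have h4 := fn_le_one g σ n x
    have h5 := hσ.rr_nonneg n
    have h6 := hσ.rr_le_two n
    have h7 : wi S n * fn g σ n x ≤ 1 := mul_le_one₀ h2 h3 h4
    have h8 : 0 ≤ wi S n * fn g σ n x := mul_nonneg h1 h3
    have h9 : wi S n * rr σ n ≤ 1 * 2 := mul_le_mul h2 h6 h5 zero_le_one
    have h10 : 0 ≤ wi S n * rr σ n := mul_nonneg h1 h5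
    rw [hZ, abs_le]
    simp only
    constructor <;> linarith
  have hSm : ∀ M N, Measurable (fun x => ∑ n ∈ Finset.Ico M N, Z n x) := fun M N =>
    Finset.measurable_fun_sum _ fun n _ => hZm n
  have hSb : ∀ M N x, |∑ n ∈ Finset.Ico M N, Z n x| ≤ 3 * N := by
    intro M N x
    refine (Finset.abs_sum_le_sum_abs _ _).trans ?_
    calc ∑ n ∈ Finset.Ico M N, |Z n x| ≤ ∑ _n ∈ Finset.Ico M N, (3 : ℝ) :=
          Finset.sum_le_sum fun n _ => hZb n x
      _ = ((N - M : ℕ) : ℝ) * 3 := by rw [Finset.sum_const, Nat.card_Ico, nsmul_eq_mul]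
      _ ≤ (N : ℝ) * 3 := by
          apply mul_le_mul_of_nonneg_right _ (by norm_num)
          exact_mod_cast Nat.sub_le N M
      _ = _ := by ring
  have mul_ii' : ∀ {f h : ℝ → ℝ} {a b : ℝ}, Measurable f → Measurable h → (∀ x, |f x| ≤ a) →
      (∀ x, |h x| ≤ b) → IntervalIntegrable (fun x => f x * h x) volume s t := by
    intro f h a b hf hh hfa hhb
    refine bdd_ii (f := fun x => f x * h x) (hf.mul hh) (A := a * b) (fun x => ?_) s t
    rw [abs_mul]
    exact mul_le_mul (hfa x) (hhb x) (abs_nonneg _) ((abs_nonneg _).trans (hfa x))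
  refine ⟨(t - s) * 5 + B + 2 * (C1 * C2), by positivity, max (max P1 P2) (max P3 n1),
    fun M N hM hMN => ?_⟩
  set C := (t - s) * 5 + B + 2 * (C1 * C2) with hC
  have hMP1 : P1 ≤ M := (le_max_left _ _).trans ((le_max_left _ _).trans hM)
  have hMP2 : P2 ≤ M := (le_max_right _ _).trans ((le_max_left _ _).trans hM)
  have hMP3 : P3 ≤ M := (le_max_left _ _).trans ((le_max_right _ _).trans hM)
  have hMn1 : n1 ≤ M := (le_max_right _ _).trans ((le_max_right _ _).trans hM)
  rw [← intervalIntegral.integral_of_le hst.le]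
  show ∫ x in s..t, (∑ n ∈ Finset.Ico M N, Z n x) ^ 2 ≤ _
  induction N, hMN using Nat.le_induction with
  | base => simp
  | succ N hMN ih =>
    have e1 : ∀ x, (∑ n ∈ Finset.Ico M (N + 1), Z n x) ^ 2 =
        (∑ n ∈ Finset.Ico M N, Z n x) * (∑ n ∈ Finset.Ico M N, Z n x) +
          (2 * ((∑ n ∈ Finset.Ico M N, Z n x) * Z N x) + Z N x * Z N x) := by
      intro x
      rw [Finset.sum_Ico_succ_top hMN]
      ring
    have i1 := mul_ii' (hSm M N) (hSm M N) (hSb M N) (hSb M N)
    have i2 := mul_ii' (hSm M N) (hZm N) (hSb M N) (hZb N)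
    have i3 := mul_ii' (hZm N) (hZm N) (hZb N) (hZb N)
    have e2 : ∫ x in s..t, (∑ n ∈ Finset.Ico M (N + 1), Z n x) ^ 2 =
        (∫ x in s..t, (∑ n ∈ Finset.Ico M N, Z n x) * (∑ n ∈ Finset.Ico M N, Z n x)) +
        (2 * (∫ x in s..t, (∑ n ∈ Finset.Ico M N, Z n x) * Z N x) +
          ∫ x in s..t, Z N x * Z N x) := by
      simp only [e1]
      rw [intervalIntegral.integral_add i1 ((i2.const_mul 2).add i3),
        intervalIntegral.integral_add (i2.const_mul 2) i3, intervalIntegral.integral_const_mul]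
    have hw0 := wi_nonneg S N
    have hw1 := wi_le_one S N
    have hr0 := hσ.rr_nonneg N
    obtain ⟨f1, f2, f3, f4, f5, f6⟩ := hf N (hMn1.trans hMN)
    have h1 : ∫ x in s..t, (∑ n ∈ Finset.Ico M N, Z n x) * Z N x ≤ C1 * C2 * (wi S N * rr σ N) := by
      have e3 : ∀ x, (∑ n ∈ Finset.Ico M N, Z n x) * Z N x =
          ∑ m ∈ Finset.Ico M N, (wi S m * wi S N) *
            ((fn g σ m x - rr σ m) * (fn g σ N x - rr σ N)) := by
        intro x
        rw [Finset.sum_mul]
        exact Finset.sum_congr rfl fun m _ => by simp only [hZ]; ring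
      have hy : ∀ m, Measurable (fun x => fn g σ m x - rr σ m) := fun m =>
        (fn_meas g σ m).sub measurable_const
      have hyb : ∀ m x, |fn g σ m x - rr σ m| ≤ 3 := by
        intro m x
        have h3 := fn_nonneg g σ m x
        have h4 := fn_le_one g σ m x
        have h5 := hσ.rr_nonneg m
        have h6 := hσ.rr_le_two m
        rw [abs_le]
        constructor <;> linarith
      simp only [e3]
      rw [intervalIntegral.integral_finsetSum fun m _ =>
        (mul_ii' (hy m) (hy N) (hyb m) (hyb N)).const_mul _]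
      calc ∑ m ∈ Finset.Ico M N, ∫ x in s..t, (wi S m * wi S N) *
            ((fn g σ m x - rr σ m) * (fn g σ N x - rr σ N)) =
          ∑ m ∈ Finset.Ico M N, (wi S m * wi S N) * ∫ x in s..t,
            (fn g σ m x - rr σ m) * (fn g σ N x - rr σ N) :=
            Finset.sum_congr rfl fun m _ => intervalIntegral.integral_const_mul _ _
        _ ≤ ∑ m ∈ Finset.Ico M N, wi S N * (C1 * qc σ m N) := by
            refine Finset.sum_le_sum fun m hm => ?_
            rw [Finset.mem_Ico] at hm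
            have h2 := hcov m N (hMP1.trans hm.1) hm.2
            have h3 := hσ.qc_nonneg m N
            have h4 := wi_nonneg S m
            have h5 := wi_le_one S m
            calc (wi S m * wi S N) * ∫ x in s..t, (fn g σ m x - rr σ m) * (fn g σ N x - rr σ N) ≤
                (wi S m * wi S N) * (C1 * qc σ m N) :=
                  mul_le_mul_of_nonneg_left h2 (mul_nonneg h4 hw0)
              _ ≤ (1 * wi S N) * (C1 * qc σ m N) := by gcongr
              _ = _ := by ring
        _ = wi S N * C1 * ∑ m ∈ Finset.Ico M N, qc σ m N := by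
            rw [Finset.mul_sum]
            exact Finset.sum_congr rfl fun m _ => by ring
        _ ≤ wi S N * C1 * (C2 * rr σ N) :=
            mul_le_mul_of_nonneg_left (hsum M N hMP2 (hMP2.trans hMN)) (by positivity)
        _ = _ := by ring
    have h2 : ∫ x in s..t, Z N x * Z N x ≤ ((t - s) * 5 + B) * (wi S N * rr σ N) := by
      have hm := hmean _ (hP3 N (hMP3.trans hMN))
      rw [Real.exp_log (hσ.pos N)] at hm
      have hm2 := (abs_le.1 hm).2
      have eX : 1 / Real.log (σ N) = rr σ N := rfl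
      rw [eX] at hm2
      have q1 : (∫ x in s..t, St (ind g) (σ N * x)) = ∫ x in s..t, fn g σ N x := rfl
      rw [q1] at hm2
      have h3 : ∫ x in s..t, Z N x * Z N x ≤
          ∫ x in s..t, (wi S N * fn g σ N x + wi S N * rr σ N * 4) := by
        refine intervalIntegral.integral_mono_on hst.le i3
          (((fn_ii g σ N s t).const_mul _).add intervalIntegrable_const) fun x _ => ?_
        have h4 := fn_nonneg g σ N x
        have h5 := fn_le_one g σ N x
        have h7 : wi S N * wi S N ≤ wi S N := mul_le_of_le_one_left hw0 hw1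
        have h8 : Z N x * Z N x = (wi S N * wi S N) * (fn g σ N x - rr σ N) ^ 2 := by
          simp only [hZ]; ring
        rw [h8]
        have h9 : (fn g σ N x - rr σ N) ^ 2 ≤ fn g σ N x + rr σ N * 4 := by
          have h10 : fn g σ N x ^ 2 ≤ fn g σ N x := by nlinarith
          have h11 : 0 ≤ fn g σ N x * rr σ N := mul_nonneg h4 hr0
          have h12 : rr σ N ^ 2 ≤ rr σ N := by nlinarith
          nlinarith
        calc (wi S N * wi S N) * (fn g σ N x - rr σ N) ^ 2 ≤
            wi S N * (fn g σ N x + rr σ N * 4) := mul_le_mul h7 h9 (sq_nonneg _) hw0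
          _ = _ := by ring
      refine h3.trans ?_
      rw [intervalIntegral.integral_add ((fn_ii g σ N s t).const_mul _) intervalIntegrable_const,
        intervalIntegral.integral_const_mul, intervalIntegral.integral_const, smul_eq_mul]
      have h6 : ∫ x in s..t, fn g σ N x ≤ (t - s) * rr σ N + B * rr σ N := by
        have h7 : B * rr σ N ^ 2 ≤ B * rr σ N := by
          apply mul_le_mul_of_nonneg_left _ hB.le
          nlinarith
        linarith
      have h7 := mul_le_mul_of_nonneg_left h6 hw0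
      linarith
    have e4 : ∫ x in s..t, (∑ n ∈ Finset.Ico M N, Z n x) * (∑ n ∈ Finset.Ico M N, Z n x) =
        ∫ x in s..t, (∑ n ∈ Finset.Ico M N, Z n x) ^ 2 := by
      congr 1
      ext x
      ring
    rw [e2, e4, Finset.sum_Ico_succ_top hMN, mul_add]
    have h5 : C * (wi S N * rr σ N) = 2 * (C1 * C2 * (wi S N * rr σ N)) +
        ((t - s) * 5 + B) * (wi S N * rr σ N) := by rw [hC]; ring
    rw [h5]
    linarith

/-- from intervals to the half line -/
lemma ae_half {p : ℝ → Prop} (h : ∀ s t : ℝ, 0 < s → s < t → ∀ᵐ x : ℝ, x ∈ Set.Ioc s t → p x) :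
    ∀ᵐ x : ℝ, 0 < x → p x := by
  have h1 : ∀ k : ℕ, ∀ᵐ x : ℝ, x ∈ Set.Ioc (1 / ((k : ℝ) + 1)) ((k : ℝ) + 2) → p x := by
    intro k
    have h2 : (0 : ℝ) < 1 / ((k : ℝ) + 1) := by positivity
    have h3 : 1 / ((k : ℝ) + 1) < (k : ℝ) + 2 := by
      rw [div_lt_iff₀ (by positivity)]
      have : (0 : ℝ) ≤ k := Nat.cast_nonneg k
      nlinarith
    exact h _ _ h2 h3
  filter_upwards [ae_all_iff.2 h1] with x hx hx0
  obtain ⟨k, hk⟩ := exists_nat_gt (max (1 / x) x)
  have hk1 := (le_max_left _ _).trans_lt hk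
  have hk2 := (le_max_right _ _).trans_lt hk
  refine hx k ⟨?_, by linarith⟩
  have hk0 : (0 : ℝ) < (k : ℝ) + 1 := by positivity
  rw [div_lt_iff₀ hk0]
  rw [div_lt_iff₀ hx0] at hk1
  nlinarith

/-- the gauge -/
noncomputable def gau (v : ℝ) : ℝ := Real.sqrt (1 + v) * (1 + Real.log (1 + v)) ^ 2

/-- **The law.** -/
theorem law_ae {g : ℕ → ℕ} (hg : Sh g) (hσ : Gr σ) (S : Set ℕ)
    (hV : Tendsto (fun N => ∑ n ∈ range N, wi S n * rr σ n) atTop atTop) :
    ∀ᵐ x : ℝ, 0 < x → ∃ B : ℝ, 0 ≤ B ∧ ∀ N : ℕ,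
      |∑ n ∈ range N, wi S n * fn g σ n x - ∑ n ∈ range N, wi S n * rr σ n| ≤
        B * gau (∑ n ∈ range N, wi S n * rr σ n) := by
  refine ae_half fun s t hs hst => ?_
  obtain ⟨C, hC, P, hvar⟩ := var_bound hg hσ S hs hst
  exact sqrt_law hC (f := fun n x => wi S n * fn g σ n x) (r := fun n => wi S n * rr σ n)
    (fun n => (fn_meas g σ n).const_mul _)
    (fun n x => mul_nonneg (wi_nonneg S n) (fn_nonneg g σ n x))
    (fun n x => mul_le_one₀ (wi_le_one S n) (fn_nonneg g σ n x) (fn_le_one g σ n x))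
    (fun n => mul_nonneg (wi_nonneg S n) (hσ.rr_nonneg n))
    (fun n => by
      have h1 := wi_nonneg S n
      have h2 := wi_le_one S n
      have h3 := hσ.rr_nonneg n
      have h4 := hσ.rr_le_two n
      nlinarith) hV P hvar

lemma bc {s t : ℝ} {E : ℕ → Set ℝ} (a : ℕ → ℝ) (ha : Summable a)
    (h : ∀ᶠ n in atTop, (volume.restrict (Set.Ioc s t)).real (E n) ≤ a n) :
    ∀ᵐ x ∂(volume.restrict (Set.Ioc s t)), ∀ᶠ n in atTop, x ∉ E n := by
  apply ae_eventually_notMem
  set μ := volume.restrict (Set.Ioc s t) with hμ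
  have hfin : IsFiniteMeasure μ := by rw [hμ]; infer_instance
  have h1 : Summable fun n => μ.real (E n) := by
    refine Summable.of_norm_bounded_eventually_nat ha ?_
    filter_upwards [h] with n hn
    rw [Real.norm_eq_abs, abs_of_nonneg measureReal_nonneg]
    exact hn
  have h2 : ∀ n, μ (E n) = ENNReal.ofReal (μ.real (E n)) := fun n =>
    (ofReal_measureReal (measure_ne_top μ _)).symm
  simp only [h2]
  exact h1.tsum_ofReal_ne_top

lemma meas_fn (g : ℕ → ℕ) (σ : ℕ → ℝ) (n : ℕ) {s t : ℝ} (hst : s ≤ t) :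
    (volume.restrict (Set.Ioc s t)).real {x | fn g σ n x = 1} = ∫ x in s..t, fn g σ n x := by
  have hm : MeasurableSet {x | fn g σ n x = 1} := fn_meas g σ n (measurableSet_singleton 1)
  rw [intervalIntegral.integral_of_le hst]
  have e : ∀ x, fn g σ n x = Set.indicator {x | fn g σ n x = 1} (fun _ => (1 : ℝ)) x := by
    intro x
    by_cases h : fn g σ n x = 1
    · rw [Set.indicator_of_mem (by exact h), h]
    · rw [Set.indicator_of_notMem (by exact h)]
      unfold fn St ind at h ⊢
      split_ifs at h ⊢ with h1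
      · exact absurd rfl h
      · rfl
  conv_rhs => enter [2, x]; rw [e x]
  rw [integral_indicator_const _ hm]
  simp

/-- the convergence half -/
theorem conv_ae {g : ℕ → ℕ} (hg : Sh g) (hσ : Gr σ) (S : Set ℕ)
    (hS : Summable fun n : ℕ => wi S n * rr σ n) :
    ∀ᵐ x : ℝ, 0 < x → ∀ᶠ n : ℕ in atTop, ¬ (n ∈ S ∧ fn g σ n x = 1) := by
  refine ae_half fun s t hs hst => ?_
  obtain ⟨A, hA1, n1, hn1, hf⟩ := hσ.facts
  obtain ⟨B, L0, hB, hL0, hmean⟩ := mean_est hg hs hst
  have hts : 0 < t - s := by linarith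
  have hℓt : Tendsto (fun n : ℕ => Real.log (σ n)) atTop atTop := by
    have h1 : Tendsto (fun n : ℕ => (n : ℝ) * (1 / A)) atTop atTop :=
      tendsto_natCast_atTop_atTop.atTop_mul_const (by positivity)
    refine tendsto_atTop_mono' _ ?_ h1
    filter_upwards [eventually_ge_atTop n1] with n hn
    obtain ⟨f1, f2, f3, f4, f5, f6⟩ := hf n hn
    have hn3 : (3 : ℝ) ≤ n := by exact_mod_cast hn1.trans hn
    have hln1 : 1 ≤ Real.log n := by
      rw [Real.le_log_iff_exp_le (by linarith)]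
      have := Real.exp_one_lt_d9
      linarith
    unfold rho rr at f1
    rw [mul_one_div, div_le_div_iff₀ (by linarith) (by positivity)] at f1
    rw [mul_one_div, div_le_iff₀ (by linarith)]
    nlinarith
  refine (ae_restrict_iff' measurableSet_Ioc).1 ?_
  refine bc (E := fun n => {x | n ∈ S ∧ fn g σ n x = 1})
    (fun n => ((t - s) + B) * (wi S n * rr σ n)) (hS.mul_left _) ?_
  filter_upwards [hℓt.eventually_ge_atTop L0, eventually_ge_atTop n1] with n hn hn'
  by_cases h : n ∈ S
  · have e : {x | n ∈ S ∧ fn g σ n x = 1} = {x | fn g σ n x = 1} := by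
      ext x; simp [h]
    rw [e, meas_fn g σ n hst.le]
    have hm := hmean _ hn
    rw [Real.exp_log (hσ.pos n)] at hm
    have hm2 := (abs_le.1 hm).2
    have eX : 1 / Real.log (σ n) = rr σ n := rfl
    rw [eX] at hm2
    have q1 : (∫ x in s..t, St (ind g) (σ n * x)) = ∫ x in s..t, fn g σ n x := rfl
    rw [q1] at hm2
    obtain ⟨f1, f2, f3, f4, f5, f6⟩ := hf n hn'
    have hr0 := hσ.rr_nonneg n
    have h7 : B * rr σ n ^ 2 ≤ B * rr σ n := by
      apply mul_le_mul_of_nonneg_left _ hB.le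
      nlinarith
    have hw : wi S n = 1 := by unfold wi; rw [if_pos h]
    rw [hw]
    linarith
  · have e : {x | n ∈ S ∧ fn g σ n x = 1} = ∅ := by
      ext x; simp [h]
    rw [e]
    have hw : wi S n = 0 := by unfold wi; rw [if_neg h]
    rw [hw]
    simp

/-- the count -/
lemma sum_eq_card (g : ℕ → ℕ) (σ : ℕ → ℝ) (S : Set ℕ) (N : ℕ) (x : ℝ) :
    ∑ n ∈ range N, wi S n * fn g σ n x =
      (((range N).filter (fun n => n ∈ S ∧ (g ⌊σ n * x⌋₊).Prime)).card : ℝ) := by
  rw [← Finset.sum_boole]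
  refine Finset.sum_congr rfl fun n _ => ?_
  unfold wi fn St ind
  by_cases h1 : n ∈ S <;> by_cases h2 : (g ⌊σ n * x⌋₊).Prime <;> simp [h1, h2]

end Pool.Agent.TH915.S0
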